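import Pool.Agent.W432.WB.Main

set_option autoImplicit false

open Polynomial

namespace Pool.Agent.W432.WB

open Pool.Agent.W432.PC (T Tc T_eq T_monic T_ne T_natDegree Tc_monic Tc_eval_ne Tc_eval_eq_zero
  T_eval_ne T_map Tc_map wt lexLE)

universe u

/-- A finite set of elements of a field of characteristic zero lies in a finitely generated
domain. -/
lemma exists_ring {F : Type u} [Field F] [CharZero F] (S : Finset F) :
    ∃ (R : Type u) (_ : CommRing R) (_ : IsDomain R) (_ : CharZero R) (_ : Algebra.FiniteType ℤ R)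
      (ι : R →+* F), Function.Injective ι ∧ ∀ x ∈ S, ∃ y, ι y = x := by
  let A : Subalgebra ℤ F := Algebra.adjoin ℤ (S : Set F)
  have hft : Algebra.FiniteType ℤ A := (Subalgebra.fg_iff_finiteType A).mp ⟨S, rfl⟩
  refine ⟨A, inferInstance, inferInstance, inferInstance, hft, A.val.toRingHom,
    Subtype.val_injective, fun x hx => ⟨⟨x, Algebra.subset_adjoin hx⟩, rfl⟩⟩

/-- Lifting a polynomial to a subring containing its coefficients. -/
lemma exists_lift {R F : Type*} [CommRing R] [Field F] (ι : R →+* F) (P : F[X])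
    (h : ∀ i ∈ P.support, ∃ y, ι y = P.coeff i) : ∃ P' : R[X], P'.map ι = P := by
  have h1 : P ∈ lifts ι := by
    rw [lifts_iff_coeff_lifts]
    intro i
    by_cases hi : i ∈ P.support
    · exact h i hi
    · rw [notMem_support_iff.mp hi]
      exact ⟨0, map_zero ι⟩
  exact (mem_lifts P).mp h1

section data

variable {F : Type*} [Field F] {m n : ℕ}

/-- `∑ b k ∂ ^ k` is Fuchsian with finite singular points among the distinct points `α j`, and
`b k / b n = Q k / T ^ (n - k)`, `T = ∏ (x - α j)`. -/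
structure IsFuchs (b : Fin (n + 1) → ℤ[X]) (α : Fin m → F) (Q : Fin (n + 1) → F[X]) : Prop where
  inj : Function.Injective α
  last : Q (Fin.last n) = 1
  eq : ∀ k : Fin (n + 1), T α ^ (n - (k : ℕ)) * (b k).map (Int.castRingHom F) =
      (b (Fin.last n)).map (Int.castRingHom F) * Q k
  deg : ∀ k : Fin (n + 1), (Q k).natDegree ≤ (n - (k : ℕ)) * (m - 1)

/-- The local exponents are the rational numbers `lam j l` at `α j`, and the degrees of the
solutions at infinity are the rational numbers `phi l`. -/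
def HasExps (α : Fin m → F) (Q : Fin (n + 1) → F[X]) (lam : Fin m → Fin n → ℚ)
    (phi : Fin n → ℚ) : Prop :=
  (∀ j, indLoc α Q j =
      C ((derivative (T α)).eval (α j) ^ n) * ∏ l, (X - C ((lam j l : ℚ) : F))) ∧
    indInf m Q = ∏ l, (X - C ((phi l : ℚ) : F))

/-- The polynomials `twist α ν k z` with
`∂ ^ k (∏ (x - α j) ^ ν j * z) = ∏ (x - α j) ^ ν j * T ^ (-k) * twist α ν k z`. -/
noncomputable def twist (α : Fin m → F) (ν : Fin m → ℚ) : ℕ → F[X] → F[X]
  | 0, z => z
  | k + 1, z => T α * derivative (twist α ν k z) +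
      (∑ j, C ((ν j : ℚ) : F) * Tc α j - (k : F[X]) * derivative (T α)) * twist α ν k z

/-- The operator has a nonzero solution `∏ (x - α j) ^ ν j * z` with a polynomial `z`. -/
def HasMonSol (α : Fin m → F) (Q : Fin (n + 1) → F[X]) (ν : Fin m → ℚ) : Prop :=
  ∃ z : F[X], z ≠ 0 ∧ ∑ k : Fin (n + 1), Q k * twist α ν k z = 0

/-- Solutions of the twisted companion system. -/
lemma monSol_of_twOp [CharZero F] (hn : 0 < n) {α : Fin m → F} {Q : Fin (n + 1) → F[X]}
    (hQ : Q (Fin.last n) = 1) {ν : Fin m → ℚ} {N : ℕ} (hN : 0 < N) {μ : Fin m → ℤ}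
    (hμ : ∀ j, (N : ℚ) * ν j = μ j) {Z : Fin n → F[X]} (hZ0 : Z ≠ 0)
    (hZ : twOp N α (comp α Q) μ Z = 0) : HasMonSol α Q ν := by
  have hN0 : (N : F[X]) ≠ 0 := by exact_mod_cast hN.ne'
  have hsum : ∑ j, ((μ j : ℤ) : F[X]) * Tc α j =
      (N : F[X]) * ∑ j, C ((ν j : ℚ) : F) * Tc α j := by
    rw [Finset.mul_sum]
    refine Finset.sum_congr rfl fun j _ => ?_
    rw [← mul_assoc]
    congr 1
    have h3 : (N : F) * ((ν j : ℚ) : F) = ((μ j : ℤ) : F) := by
      exact_mod_cast congrArg (fun x : ℚ => (x : F)) (hμ j)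
    have h4 := congrArg (C : F → F[X]) h3
    rw [map_mul] at h4
    simpa using h4.symm
  have hrow : ∀ i : Fin n, T α * derivative (Z i) + (∑ j, C ((ν j : ℚ) : F) * Tc α j) * Z i =
      (comp α Q).mulVec Z i := by
    intro i
    have h1 := congrFun hZ i
    simp only [twOp, Pi.zero_apply] at h1
    rw [hsum] at h1
    apply mul_left_cancel₀ hN0
    linear_combination h1
  have hmul : ∀ i : Fin n, (comp α Q).mulVec Z i = ((i : ℕ) : F[X]) * derivative (T α) * Z i +
      (∑ l : Fin n, if (l : ℕ) = i + 1 then Z l else 0) -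
      (if (i : ℕ) + 1 = n then ∑ l : Fin n, Q l.castSucc * Z l else 0) := by
    intro i
    have h3 : ∀ l : Fin n, comp α Q i l * Z l =
        (if i = l then ((i : ℕ) : F[X]) * derivative (T α) * Z l else 0) +
        (if (l : ℕ) = i + 1 then Z l else 0) -
        (if (i : ℕ) + 1 = n then Q l.castSucc * Z l else 0) := by
      intro l
      simp only [comp, Matrix.of_apply]
      split_ifs <;> ring
    simp only [Matrix.mulVec, dotProduct, h3, Finset.sum_add_distrib, Finset.sum_sub_distrib,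
      Finset.sum_ite_eq, Finset.mem_univ, if_true]
    congr 1
    split_ifs with h4
    · rfl
    · simp
  have htw : ∀ t : ℕ, ∀ h : t < n, Z ⟨t, h⟩ = twist α ν t (Z ⟨0, hn⟩) := by
    intro t
    induction t with
    | zero => intro _; rfl
    | succ t ih =>
      intro h
      have ht : t < n := by omega
      have h1 := hrow ⟨t, ht⟩
      rw [hmul] at h1
      have h2 : ¬ (t + 1 = n) := by omega
      simp only [h2, if_false, sub_zero] at h1
      have h3 : (∑ l : Fin n, if (l : ℕ) = t + 1 then Z l else 0) = Z ⟨t + 1, h⟩ := by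
        rw [Finset.sum_eq_single ⟨t + 1, h⟩]
        · simp
        · intro l _ hl
          rw [if_neg]
          intro h'
          exact hl (Fin.ext h')
        · intro h'; exact absurd (Finset.mem_univ _) h'
      rw [h3] at h1
      rw [twist, ← ih ht]
      linear_combination -h1
  have hz0 : Z ⟨0, hn⟩ ≠ 0 := by
    intro h0
    apply hZ0
    have h1 : ∀ t : ℕ, twist α ν t (0 : F[X]) = 0 := by
      intro t
      induction t with
      | zero => rfl
      | succ t ih => rw [twist, ih]; simp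
    ext1 i
    rw [show Z i = Z ⟨(i : ℕ), i.isLt⟩ from rfl, htw i i.isLt, h0, h1, Pi.zero_apply]
  refine ⟨Z ⟨0, hn⟩, hz0, ?_⟩
  have hlast : n - 1 < n := by omega
  have h1 := hrow ⟨n - 1, hlast⟩
  rw [hmul] at h1
  have h2 : n - 1 + 1 = n := by omega
  simp only [h2, if_true] at h1
  have h3 : (∑ l : Fin n, if (l : ℕ) = n then Z l else 0) = 0 := by
    refine Finset.sum_eq_zero fun l _ => ?_
    rw [if_neg]
    have := l.isLt
    omega
  rw [h3, htw _ hlast] at h1
  rw [Fin.sum_univ_castSucc, hQ, one_mul]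
  have h4 : ∑ i : Fin n, Q i.castSucc * twist α ν (i.castSucc : ℕ) (Z ⟨0, hn⟩) =
      ∑ l : Fin n, Q l.castSucc * Z l := by
    refine Finset.sum_congr rfl fun l _ => ?_
    rw [show Z l = Z ⟨(l : ℕ), l.isLt⟩ from rfl, htw l l.isLt, Fin.val_castSucc]
  have h5 : twist α ν ((Fin.last n : Fin (n + 1)) : ℕ) (Z ⟨0, hn⟩) =
      T α * derivative (twist α ν (n - 1) (Z ⟨0, hn⟩)) +
      (∑ j, C ((ν j : ℚ) : F) * Tc α j - ((n - 1 : ℕ) : F[X]) * derivative (T α)) *
        twist α ν (n - 1) (Z ⟨0, hn⟩) := by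
    have : ((Fin.last n : Fin (n + 1)) : ℕ) = (n - 1) + 1 := by rw [Fin.val_last, h2]
    rw [this, twist]
  rw [h4, h5]
  linear_combination h1

end data

theorem main_field {F : Type u} [Field F] [CharZero F] {m n : ℕ} (hm : 0 < m) (hn : 0 < n)
    (b : Fin (n + 1) → ℤ[X]) (hb : b (Fin.last n) ≠ 0) (α : Fin m → F) (Q : Fin (n + 1) → F[X])
    (hF : IsFuchs b α Q) (lam : Fin m → Fin n → ℚ) (phi : Fin n → ℚ) (hE : HasExps α Q lam phi)
    (N : ℕ) (hN : 0 < N) (hNlam : ∀ j l, ∃ z : ℤ, (N : ℚ) * lam j l = z)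
    (hNphi : ∀ l, ∃ z : ℤ, (N : ℚ) * phi l = z) (a : ℤ)
    (hsort : ∀ j l l', l ≤ l' → lexLE a (lam j l) (lam j l'))
    (hsort' : ∀ l l', l ≤ l' → lexLE a (phi l + (((n - 1) * (m - 1) : ℕ) : ℚ))
      (phi l' + (((n - 1) * (m - 1) : ℕ) : ℚ)))
    (κ : Fin m → Fin n) (s : Fin n) (q : ℤ)
    (hq : ∑ j, ∑ l, wt a (lam j l) - ∑ l, wt a (phi l + (((n - 1) * (m - 1) : ℕ) : ℚ)) +
      ∑ j, ((κ j : ℕ) : ℚ) = q * n + (s : ℕ))
    (hle : q + wt a (phi s + (((n - 1) * (m - 1) : ℕ) : ℚ)) ≤ ∑ j, wt a (lam j (κ j)))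
    (heq : q + wt a (phi s + (((n - 1) * (m - 1) : ℕ) : ℚ)) = ∑ j, wt a (lam j (κ j)) →
      ¬ HasMonSol α Q (fun j => lam j (κ j))) :
    ∃ P₀ : ℕ, ∀ p : ℕ, P₀ < p → (N : ℤ) ∣ a * p + 1 → ∀ _hp : Fact p.Prime, ¬ FullMod b p := by
  classical
  choose mu hmu using hNlam
  choose mu' hmu' using hNphi
  let S : Finset F := (Finset.univ.image α) ∪
    (Finset.univ.image fun x : Fin m × Fin m => (α x.1 - α x.2)⁻¹) ∪
    (Finset.univ.biUnion fun k : Fin (n + 1) => (Q k).support.image (Q k).coeff)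
  obtain ⟨R, _, _, _, _, ι, hι, hS⟩ := exists_ring S
  have hα' : ∀ j, ∃ x, ι x = α j := fun j => hS _ (by
    simp only [S, Finset.mem_union, Finset.mem_image, Finset.mem_univ, true_and]
    exact Or.inl (Or.inl ⟨j, rfl⟩))
  choose α' hα' using hα'
  have hinv : ∀ i j, ∃ x, ι x = (α i - α j)⁻¹ := fun i j => hS _ (by
    simp only [S, Finset.mem_union, Finset.mem_image, Finset.mem_univ, true_and]
    exact Or.inl (Or.inr ⟨(i, j), rfl⟩))
  have hQl : ∀ k, ∃ P : R[X], P.map ι = Q k := fun k => exists_lift ι (Q k) fun i hi => hS _ (by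
    simp only [S, Finset.mem_union, Finset.mem_biUnion, Finset.mem_univ, true_and]
    exact Or.inr ⟨k, Finset.mem_image.mpr ⟨i, hi, rfl⟩⟩)
  choose Q' hQ' using hQl
  have hαe : (fun j => ι (α' j)) = α := funext hα'
  have hQe : (fun k => (Q' k).map ι) = Q := funext hQ'
  have hmapinj : Function.Injective (Polynomial.map ι) := map_injective ι hι
  have hcast : ι.comp (Int.castRingHom R) = Int.castRingHom F := RingHom.ext_int _ _
  have hunit : ∀ i j, i ≠ j → IsUnit (α' i - α' j) := by
    intro i j hij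
    obtain ⟨x, hx⟩ := hinv i j
    refine IsUnit.of_mul_eq_one x ?_
    apply hι
    rw [map_mul, map_sub, hα', hα', hx, map_one]
    exact mul_inv_cancel₀ (sub_ne_zero.mpr fun h => hij (hF.inj h))
  have hQlast : Q' (Fin.last n) = 1 := by
    apply hmapinj
    rw [hQ', hF.last, Polynomial.map_one]
  have hdeg : ∀ k, (Q' k).natDegree ≤ (n - k) * (m - 1) := by
    intro k
    rw [← natDegree_map_eq_of_injective hι, hQ']
    exact hF.deg k
  have hbQ : ∀ k : Fin (n + 1), T α' ^ (n - (k : ℕ)) * (b k).map (Int.castRingHom R) =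
      (b (Fin.last n)).map (Int.castRingHom R) * Q' k := by
    intro k
    apply hmapinj
    rw [Polynomial.map_mul, Polynomial.map_mul, Polynomial.map_pow, T_map, Polynomial.map_map,
      Polynomial.map_map, hcast, hQ', hαe]
    exact hF.eq k
  have htr := fuchs hn hm hF.inj hF.last hF.deg hE.1 hE.2
  have hfac : ∀ (x : Fin n → ℚ) (z : Fin n → ℤ), (∀ l, (N : ℚ) * x l = z l) →
      C ((N : F) ^ n) * ∏ l, (X - C ((x l : ℚ) : F)) =
        ∏ l, (C (N : F) * X - C ((z l : ℤ) : F)) := by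
    intro x z hxz
    have h1 : C ((N : F) ^ n) = ∏ _l : Fin n, (C (N : F) : F[X]) := by
      rw [Finset.prod_const, Finset.card_univ, Fintype.card_fin, C_pow]
    rw [h1, ← Finset.prod_mul_distrib]
    refine Finset.prod_congr rfl fun l _ => ?_
    have h2 : (N : F) * ((x l : ℚ) : F) = ((z l : ℤ) : F) := by
      exact_mod_cast congrArg (fun x : ℚ => (x : F)) (hxz l)
    rw [mul_sub, ← C_mul, h2]
  have hlinmap : ∀ z : Fin n → ℤ, (∏ l, (C (N : R) * X - C ((z l : ℤ) : R))).map ι =
      ∏ l, (C (N : F) * X - C ((z l : ℤ) : F)) := by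
    intro z
    rw [Polynomial.map_prod]
    exact Finset.prod_congr rfl fun l _ => by simp
  have hloc : ∀ j, C ((N : R) ^ n) * indLoc α' Q' j = C ((derivative (T α')).eval (α' j) ^ n) *
      ∏ l, (C (N : R) * X - C ((mu j l : ℤ) : R)) := by
    intro j
    apply hmapinj
    have h1 : ι ((derivative (T α')).eval (α' j)) = (derivative (T α)).eval (α j) := by
      rw [← eval_map_apply, ← derivative_map, T_map, hαe, hα']
    rw [Polynomial.map_mul, Polynomial.map_mul, indLoc_map, hαe, hQe, hlinmap, map_C, map_C,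
      map_pow ι, map_pow ι, map_natCast, h1, hE.1 j, ← hfac _ _ (hmu j)]
    ring
  have hinf : C ((N : R) ^ n) * indInf m Q' = ∏ l, (C (N : R) * X - C ((mu' l : ℤ) : R)) := by
    apply hmapinj
    rw [Polynomial.map_mul, indInf_map, hQe, hlinmap, map_C, map_pow ι, map_natCast, hE.2,
      hfac _ _ hmu']
  refine main hm hn b hb α' hunit Q' hQlast hdeg hbQ lam phi htr N hN mu mu' hmu hmu' hloc hinf a
    hsort hsort' κ s q hq hle fun h => ?_
  intro Z hZ
  by_contra hZ0
  apply heq h
  -- map the solution to `F`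
  let ρ : FractionRing R →+* F := IsFractionRing.lift hι
  have hρ : ∀ x, ρ (algebraMap R (FractionRing R) x) = ι x := fun x =>
    IsFractionRing.lift_algebraMap hι x
  have hρinj : Function.Injective ρ := ρ.injective
  have hρcomp : ρ.comp (algebraMap R (FractionRing R)) = ι := RingHom.ext hρ
  have h1 : twOp N α (comp α Q) (fun j => mu j (κ j)) (fun i => (Z i).map ρ) = 0 := by
    ext1 i
    have h2 := twOp_map ρ N (fun j => algebraMap R (FractionRing R) (α' j))
      ((comp α' Q').map (Polynomial.map (algebraMap R (FractionRing R))))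
      (fun j => mu j (κ j)) Z i
    rw [hZ, Pi.zero_apply, Polynomial.map_zero] at h2
    have h3 : ((comp α' Q').map (Polynomial.map (algebraMap R (FractionRing R)))).map
        (Polynomial.map ρ) = comp α Q := by
      rw [comp_map, comp_map]
      congr 1
      · ext1 j; rw [hρ, hα']
      · ext1 k; rw [Polynomial.map_map, hρcomp, hQ']
    rw [h3] at h2
    have h4 : (fun j => ρ (algebraMap R (FractionRing R) (α' j))) = α := by
      ext1 j; rw [hρ, hα']
    rw [h4] at h2
    exact h2.symm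
  refine monSol_of_twOp hn hF.last hN (fun j => hmu j (κ j)) ?_ h1
  intro h0
  apply hZ0
  ext1 i
  have h2 := congrFun h0 i
  simp only [Pi.zero_apply] at h2
  exact (Polynomial.map_eq_zero_iff hρinj).mp h2

end Pool.Agent.W432.WB
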