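import Pool.Agent.W432.WB.Oper

set_option autoImplicit false

open Polynomial

namespace Pool.Agent.W432.WB

open Pool.Agent.W432.PC (T Tc T_eq T_monic T_ne T_natDegree Tc_monic Tc_eval_ne Tc_eval_eq_zero
  T_eval_ne T_map Tc_map)

/-- For a prime `p`: the reduction modulo `p` of `∑ b i * ∂ ^ i` has a full basis of rational
solutions: there are `n` solutions in `F_p(x)` independent over the constants of `d / dx`. -/
def FullMod {n : ℕ} (b : Fin (n + 1) → ℤ[X]) (p : ℕ) [Fact p.Prime] : Prop :=
  ∃ D : Derivation ℤ (RatFunc (ZMod p)) (RatFunc (ZMod p)),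
    D (RatFunc.X : RatFunc (ZMod p)) = 1 ∧
    ∃ y : Fin n → RatFunc (ZMod p),
      (∀ j : Fin n, ∑ i : Fin (n + 1),
          Polynomial.aeval (RatFunc.X : RatFunc (ZMod p)) (b i) * (⇑D)^[(i : ℕ)] (y j) = 0) ∧
      ∀ c : Fin n → RatFunc (ZMod p), (∀ j, D (c j) = 0) →
        ∑ j : Fin n, c j * y j = 0 → ∀ j, c j = 0

/-- `∑ b i * ∂ ^ i` has a full basis of algebraic solutions: there are `n` solutions in an
algebraic closure of `ℚ(x)` independent over the constants of the derivation `d / dx`. -/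
def FullAlg {n : ℕ} (b : Fin (n + 1) → ℤ[X]) : Prop :=
  ∃ D : Derivation ℤ (AlgebraicClosure (RatFunc ℚ)) (AlgebraicClosure (RatFunc ℚ)),
    D (algebraMap (RatFunc ℚ) (AlgebraicClosure (RatFunc ℚ)) RatFunc.X) = 1 ∧
    ∃ y : Fin n → AlgebraicClosure (RatFunc ℚ),
      (∀ j : Fin n, ∑ i : Fin (n + 1),
          Polynomial.aeval (algebraMap (RatFunc ℚ) (AlgebraicClosure (RatFunc ℚ)) RatFunc.X) (b i)
            * (⇑D)^[(i : ℕ)] (y j) = 0) ∧
      ∀ c : Fin n → AlgebraicClosure (RatFunc ℚ), (∀ j, D (c j) = 0) →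
        ∑ j : Fin n, c j * y j = 0 → ∀ j, c j = 0

section wronskian

variable {F : Type*} [Field F] (D : F →+ F) (hD : ∀ x y, D (x * y) = x * D y + y * D x)

include hD

lemma iter_const_mul {c : F} (hc : D c = 0) (y : F) (i : ℕ) :
    (⇑D)^[i] (c * y) = c * (⇑D)^[i] y := by
  induction i generalizing y with
  | zero => rfl
  | succ i ih =>
    rw [Function.iterate_succ_apply, Function.iterate_succ_apply, hD, hc]
    rw [mul_zero, add_zero, ih]

lemma exists_const_relation {n : ℕ} (y : Fin n → F)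
    (hclosed : ∀ v : Fin n → F, (∀ i : Fin n, ∑ j, v j * (⇑D)^[(i : ℕ)] (y j) = 0) →
      ∑ j, v j * (⇑D)^[n] (y j) = 0)
    (hdet : (Matrix.of fun j i : Fin n => (⇑D)^[(i : ℕ)] (y j)).det = 0) :
    ∃ c : Fin n → F, (∀ j, D (c j) = 0) ∧ ∑ j, c j * y j = 0 ∧ c ≠ 0 := by
  classical
  let Rel : (Fin n → F) → Prop := fun v => ∀ i : Fin n, ∑ j, v j * (⇑D)^[(i : ℕ)] (y j) = 0
  let S : Set ℕ := {t | ∃ v : Fin n → F, v ≠ 0 ∧ Rel v ∧
    (Finset.univ.filter fun j => v j ≠ 0).card = t}
  have hS : S.Nonempty := by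
    obtain ⟨l, h1, h2⟩ := Matrix.exists_vecMul_eq_zero_iff.mpr hdet
    refine ⟨_, l, h1, fun i => ?_, rfl⟩
    have := congrFun h2 i
    simpa [Matrix.vecMul, dotProduct] using this
  obtain ⟨v, hv0, hv, hcard⟩ := Nat.sInf_mem hS
  obtain ⟨j₀, hj₀⟩ := Function.ne_iff.mp hv0
  have hj₀' : v j₀ ≠ 0 := hj₀
  let w : Fin n → F := fun j => (v j₀)⁻¹ * v j
  have hw : Rel w := by
    intro i
    simp only [w, mul_assoc, ← Finset.mul_sum]
    rw [hv i, mul_zero]
  have hw1 : w j₀ = 1 := inv_mul_cancel₀ hj₀'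
  have hD1 : D 1 = 0 := by
    have h1 := hD 1 1
    simp only [mul_one, one_mul] at h1
    simpa using h1
  have hn : 0 < n := lt_of_le_of_lt (Nat.zero_le _) j₀.isLt
  have hDw : Rel (fun j => D (w j)) := by
    intro i
    have h1 : ∑ j, w j * (⇑D)^[(i : ℕ) + 1] (y j) = 0 := by
      by_cases hi : (i : ℕ) + 1 < n
      · exact hw ⟨(i : ℕ) + 1, hi⟩
      · have : (i : ℕ) + 1 = n := by have := i.isLt; omega
        rw [this]
        exact hclosed w hw
    have h2 := congrArg D (hw i)
    rw [map_zero, map_sum] at h2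
    simp only [hD, Finset.sum_add_distrib] at h2
    simp only [Function.iterate_succ_apply'] at h1
    rw [h1, zero_add] at h2
    rw [← h2]
    exact Finset.sum_congr rfl fun j _ => mul_comm _ _
  have hDw0 : (fun j => D (w j)) = 0 := by
    by_contra hne
    have h1 : (Finset.univ.filter fun j => D (w j) ≠ 0).card ∈ S := ⟨_, hne, hDw, rfl⟩
    have h2 := Nat.sInf_le h1
    have h3 : (Finset.univ.filter fun j => D (w j) ≠ 0).card <
        (Finset.univ.filter fun j => v j ≠ 0).card := by
      apply Finset.card_lt_card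
      refine ⟨fun j hj => ?_, fun hsub => ?_⟩
      · rw [Finset.mem_filter] at hj ⊢
        refine ⟨hj.1, fun h0 => hj.2 ?_⟩
        simp [w, h0]
      · have h4 := hsub (Finset.mem_filter.mpr ⟨Finset.mem_univ j₀, hj₀'⟩)
        rw [Finset.mem_filter] at h4
        exact h4.2 (by rw [hw1]; exact hD1)
    omega
  refine ⟨w, fun j => congrFun hDw0 j, ?_, ?_⟩
  · have := hw ⟨0, hn⟩
    simpa using this
  · intro h0
    have := congrFun h0 j₀
    rw [hw1] at this
    exact one_ne_zero this

end wronskian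

section modp

variable {p : ℕ} [Fact p.Prime]

lemma D_algebraMap {D : Derivation ℤ (RatFunc (ZMod p)) (RatFunc (ZMod p))}
    (hD : D (RatFunc.X : RatFunc (ZMod p)) = 1) (f : (ZMod p)[X]) :
    D (algebraMap (ZMod p)[X] (RatFunc (ZMod p)) f) =
      algebraMap (ZMod p)[X] (RatFunc (ZMod p)) (derivative f) := by
  have hC : ∀ a : ZMod p, D (algebraMap (ZMod p)[X] (RatFunc (ZMod p)) (C a)) = 0 := by
    intro a
    obtain ⟨z, rfl⟩ := ZMod.intCast_surjective a
    have : (C ((z : ℤ) : ZMod p) : (ZMod p)[X]) = ((z : ℤ) : (ZMod p)[X]) := by simp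
    rw [this, map_intCast]
    exact D.map_intCast z
  induction f using Polynomial.induction_on' with
  | add f g hf hg => rw [map_add, map_add, hf, hg, map_add, map_add]
  | monomial t a =>
    rw [← C_mul_X_pow_eq_monomial, map_mul, Derivation.leibniz, hC, smul_zero, add_zero, map_pow,
      RatFunc.algebraMap_X, Derivation.leibniz_pow, hD, derivative_C_mul, derivative_X_pow,
      map_mul, map_mul, map_pow, RatFunc.algebraMap_X, smul_eq_mul, smul_eq_mul, mul_one,
      nsmul_eq_mul]
    simp only [C_eq_natCast, map_natCast]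

lemma D_iter_algebraMap {D : Derivation ℤ (RatFunc (ZMod p)) (RatFunc (ZMod p))}
    (hD : D (RatFunc.X : RatFunc (ZMod p)) = 1) (f : (ZMod p)[X]) (i : ℕ) :
    (⇑D)^[i] (algebraMap (ZMod p)[X] (RatFunc (ZMod p)) f) =
      algebraMap (ZMod p)[X] (RatFunc (ZMod p)) (derivative^[i] f) := by
  induction i generalizing f with
  | zero => rfl
  | succ i ih =>
    rw [Function.iterate_succ_apply, D_algebraMap hD, ih, ← Function.iterate_succ_apply]

lemma aeval_eq (b : ℤ[X]) : Polynomial.aeval (RatFunc.X : RatFunc (ZMod p)) b =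
    algebraMap (ZMod p)[X] (RatFunc (ZMod p)) (b.map (Int.castRingHom (ZMod p))) := by
  have h1 : (b.map (Int.castRingHom (ZMod p))) = Polynomial.aeval (X : (ZMod p)[X]) b := by
    rw [aeval_def, eval₂_eq_eval_map]
    have h2 : (b.map (algebraMap ℤ (ZMod p)[X])) =
        (b.map (Int.castRingHom (ZMod p))).map (C : ZMod p →+* (ZMod p)[X]) := by
      rw [Polynomial.map_map]
      congr 1
    rw [h2, eval_map, eval₂_C_X]
  rw [h1, ← RatFunc.algebraMap_X]
  have := Polynomial.aeval_algebraMap_apply (A := (ZMod p)[X]) (RatFunc (ZMod p))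
    (X : (ZMod p)[X]) b
  exact this

/-- A full basis of rational solutions modulo `p` gives polynomial solutions with nonvanishing
Wronskian. -/
theorem FullMod.exists_poly {n : ℕ} {b : Fin (n + 1) → ℤ[X]} (h : FullMod b p)
    (hb : (b (Fin.last n)).map (Int.castRingHom (ZMod p)) ≠ 0) :
    ∃ f : Fin n → (ZMod p)[X],
      (∀ j, ∑ i : Fin (n + 1), (b i).map (Int.castRingHom (ZMod p)) *
        derivative^[(i : ℕ)] (f j) = 0) ∧
      (Matrix.of fun j i : Fin n => derivative^[(i : ℕ)] (f j)).det ≠ 0 := by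
  classical
  obtain ⟨D, hD, y, hy, hind⟩ := h
  have hinj : Function.Injective (algebraMap (ZMod p)[X] (RatFunc (ZMod p))) :=
    IsFractionRing.injective _ _
  let D' : RatFunc (ZMod p) →+ RatFunc (ZMod p) := D.toLinearMap.toAddMonoidHom
  have hD' : ∀ x y, D' (x * y) = x * D' y + y * D' x := fun x y => D.leibniz x y
  -- denominators
  let d : Fin n → (ZMod p)[X] := fun j => (y j).denom
  let f : Fin n → (ZMod p)[X] := fun j => (y j).num * (d j) ^ (p - 1)
  let e : Fin n → RatFunc (ZMod p) := fun j => algebraMap (ZMod p)[X] (RatFunc (ZMod p)) (d j ^ p)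
  have hp : 0 < p := (Fact.out : p.Prime).pos
  have he0 : ∀ j, e j ≠ 0 := fun j => by
    simp only [e, ne_eq, map_eq_zero_iff _ hinj]
    exact pow_ne_zero _ (RatFunc.denom_ne_zero _)
  have heD : ∀ j, D (e j) = 0 := by
    intro j
    simp only [e]
    rw [D_algebraMap hD, derivative_pow]
    simp
  have hf : ∀ j, algebraMap (ZMod p)[X] (RatFunc (ZMod p)) (f j) = e j * y j := by
    intro j
    have h1 := RatFunc.num_div_denom (y j)
    have h2 : algebraMap (ZMod p)[X] (RatFunc (ZMod p)) (d j) ≠ 0 := by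
      rw [ne_eq, map_eq_zero_iff _ hinj]
      exact RatFunc.denom_ne_zero _
    have h3 : d j ^ p = d j ^ (p - 1) * d j := by rw [← pow_succ, Nat.sub_add_cancel hp]
    simp only [e, f]
    rw [h3]
    rw [map_mul, map_mul, map_pow]
    have h4 : algebraMap (ZMod p)[X] (RatFunc (ZMod p)) (y j).num =
        y j * algebraMap (ZMod p)[X] (RatFunc (ZMod p)) (d j) := by
      conv_rhs => rw [← h1]
      exact (div_mul_cancel₀ _ h2).symm
    rw [h4]
    ring
  have hiter : ∀ j i, algebraMap (ZMod p)[X] (RatFunc (ZMod p)) (derivative^[i] (f j)) =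
      e j * (⇑D)^[i] (y j) := by
    intro j i
    rw [← D_iter_algebraMap hD, hf]
    exact iter_const_mul D' hD' (heD j) (y j) i
  have hsol : ∀ j, ∑ i : Fin (n + 1), (b i).map (Int.castRingHom (ZMod p)) *
      derivative^[(i : ℕ)] (f j) = 0 := by
    intro j
    apply hinj
    rw [map_sum, map_zero]
    have h1 := hy j
    have h2 := congrArg (fun x => e j * x) h1
    simp only [mul_zero, Finset.mul_sum] at h2
    rw [← h2]
    refine Finset.sum_congr rfl fun i _ => ?_
    rw [map_mul, hiter, aeval_eq]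
    ring
  refine ⟨f, hsol, fun h0 => ?_⟩
  have h1 : (Matrix.of fun j i : Fin n => (⇑D)^[(i : ℕ)] (e j * y j)).det = 0 := by
    have h2 : (Matrix.of fun j i : Fin n => (⇑D)^[(i : ℕ)] (e j * y j)) =
        (algebraMap (ZMod p)[X] (RatFunc (ZMod p))).mapMatrix
          (Matrix.of fun j i : Fin n => derivative^[(i : ℕ)] (f j)) := by
      ext j i
      simp only [Matrix.of_apply, RingHom.mapMatrix_apply, Matrix.map_apply]
      rw [hiter]
      exact iter_const_mul D' hD' (heD j) (y j) i
    rw [h2, ← RingHom.map_det, h0, map_zero]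
  obtain ⟨c, hc1, hc2, hc3⟩ := exists_const_relation D' hD' (fun j => e j * y j) (by
    intro v hv₀
    have hv : ∀ i : Fin n, ∑ j, v j * (⇑D)^[(i : ℕ)] (e j * y j) = 0 := hv₀
    change ∑ j, v j * (⇑D)^[n] (e j * y j) = 0
    have hbn : Polynomial.aeval (RatFunc.X : RatFunc (ZMod p)) (b (Fin.last n)) ≠ 0 := by
      rw [aeval_eq, ne_eq, map_eq_zero_iff _ hinj]
      exact hb
    have h2 : ∀ j, ∑ i : Fin (n + 1), Polynomial.aeval (RatFunc.X : RatFunc (ZMod p)) (b i) *
        (⇑D)^[(i : ℕ)] (e j * y j) = 0 := by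
      intro j
      have h3 := congrArg (fun x => e j * x) (hy j)
      simp only [mul_zero, Finset.mul_sum] at h3
      rw [← h3]
      refine Finset.sum_congr rfl fun i _ => ?_
      have h4 : (⇑D)^[(i : ℕ)] (e j * y j) = e j * (⇑D)^[(i : ℕ)] (y j) :=
        iter_const_mul D' hD' (heD j) (y j) i
      rw [h4]
      ring
    have h3 : ∑ j, v j * ∑ i : Fin (n + 1),
        Polynomial.aeval (RatFunc.X : RatFunc (ZMod p)) (b i) * (⇑D)^[(i : ℕ)] (e j * y j) = 0 :=
      Finset.sum_eq_zero fun j _ => by rw [h2, mul_zero]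
    simp only [Finset.mul_sum] at h3
    rw [Finset.sum_comm, Fin.sum_univ_castSucc] at h3
    have h4 : ∑ i : Fin n, ∑ j, v j * (Polynomial.aeval (RatFunc.X : RatFunc (ZMod p))
        (b i.castSucc) * (⇑D)^[(i.castSucc : ℕ)] (e j * y j)) = 0 := by
      refine Finset.sum_eq_zero fun i _ => ?_
      have h5 := hv i
      have h6 : ∑ j, v j * (Polynomial.aeval (RatFunc.X : RatFunc (ZMod p))
        (b i.castSucc) * (⇑D)^[(i.castSucc : ℕ)] (e j * y j)) =
          Polynomial.aeval (RatFunc.X : RatFunc (ZMod p)) (b i.castSucc) *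
            ∑ j, v j * (⇑D)^[(i : ℕ)] (e j * y j) := by
        rw [Finset.mul_sum]
        exact Finset.sum_congr rfl fun j _ => by rw [Fin.val_castSucc]; ring
      rw [h6, h5, mul_zero]
    rw [h4, zero_add] at h3
    apply (mul_eq_zero.mp _).resolve_left hbn
    rw [← h3, Finset.mul_sum]
    exact Finset.sum_congr rfl fun j _ => by rw [Fin.val_last]; ring) h1
  apply hc3
  have h2 := hind (fun j => c j * e j) (fun j => by
    have h3 : D (c j) = 0 := hc1 j
    rw [Derivation.leibniz, h3, heD j]; simp) (by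
    rw [← hc2]
    exact Finset.sum_congr rfl fun j _ => by ring)
  ext1 j
  exact (mul_eq_zero.mp (h2 j)).resolve_right (he0 j)

end modp

section companion

variable {K : Type*} [Field K] {m n : ℕ} {α : Fin m → K} {Q : Fin (n + 1) → K[X]}

lemma derivative_pow_T (t : ℕ) (f : K[X]) : T α * derivative (T α ^ t * f) =
    (t : K[X]) * derivative (T α) * (T α ^ t * f) + T α ^ (t + 1) * derivative f := by
  rw [derivative_mul, derivative_pow]
  cases t with
  | zero => simp
  | succ s =>
    simp only [Nat.add_sub_cancel]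
    rw [show (C ((s + 1 : ℕ) : K) : K[X]) = ((s + 1 : ℕ) : K[X]) by simp]
    ring

/-- Polynomial solutions of the scalar equation give solutions of the companion system. -/
lemma sol_comp {y : K[X]} (hQ : Q (Fin.last n) = 1)
    (hy : ∑ k : Fin (n + 1), Q k * (T α ^ (k : ℕ) * derivative^[(k : ℕ)] y) = 0) :
    Sol α (comp α Q) (fun k : Fin n => T α ^ (k : ℕ) * derivative^[(k : ℕ)] y) := by
  intro i
  have hrow : (comp α Q).mulVec (fun k : Fin n => T α ^ (k : ℕ) * derivative^[(k : ℕ)] y) i =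
      ((i : ℕ) : K[X]) * derivative (T α) * (T α ^ (i : ℕ) * derivative^[(i : ℕ)] y) +
      (∑ l : Fin n, if (l : ℕ) = i + 1 then T α ^ (l : ℕ) * derivative^[(l : ℕ)] y else 0) -
      (if (i : ℕ) + 1 = n then ∑ l : Fin n, Q l.castSucc *
        (T α ^ (l : ℕ) * derivative^[(l : ℕ)] y) else 0) := by
    have h3 : ∀ l : Fin n, comp α Q i l * (T α ^ (l : ℕ) * derivative^[(l : ℕ)] y) =
        (if i = l then ((i : ℕ) : K[X]) * derivative (T α) *
          (T α ^ (l : ℕ) * derivative^[(l : ℕ)] y) else 0) +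
        (if (l : ℕ) = i + 1 then T α ^ (l : ℕ) * derivative^[(l : ℕ)] y else 0) -
        (if (i : ℕ) + 1 = n then Q l.castSucc * (T α ^ (l : ℕ) * derivative^[(l : ℕ)] y)
          else 0) := by
      intro l
      simp only [comp, Matrix.of_apply]
      split_ifs <;> ring
    simp only [Matrix.mulVec, dotProduct, h3, Finset.sum_add_distrib, Finset.sum_sub_distrib,
      Finset.sum_ite_eq, Finset.mem_univ, if_true]
    congr 1
    split_ifs with h4
    · rfl
    · simp
  rw [hrow, derivative_pow_T, ← Function.iterate_succ_apply' (f := derivative)]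
  by_cases hi : (i : ℕ) + 1 = n
  · rw [if_pos hi]
    have h3 : (∑ l : Fin n, if (l : ℕ) = i + 1 then
        T α ^ (l : ℕ) * derivative^[(l : ℕ)] y else 0) = 0 := by
      refine Finset.sum_eq_zero fun l _ => ?_
      rw [if_neg]
      have := l.isLt
      omega
    rw [h3]
    rw [Fin.sum_univ_castSucc, hQ, one_mul] at hy
    simp only [Fin.val_castSucc, Fin.val_last] at hy
    have h4 : (i : ℕ).succ = n := hi
    rw [h4, hi]
    linear_combination hy
  · have hlt : (i : ℕ) + 1 < n := by have := i.isLt; omega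
    rw [if_neg hi]
    have h3 : (∑ l : Fin n, if (l : ℕ) = i + 1 then
        T α ^ (l : ℕ) * derivative^[(l : ℕ)] y else 0) =
        T α ^ ((i : ℕ) + 1) * derivative^[(i : ℕ) + 1] y := by
      rw [Finset.sum_eq_single ⟨(i : ℕ) + 1, hlt⟩]
      · simp
      · intro l _ hl
        rw [if_neg]
        intro h
        exact hl (Fin.ext h)
      · intro h; exact absurd (Finset.mem_univ _) h
    rw [h3]
    simp

theorem full_comp (hQ : Q (Fin.last n) = 1) (f : Fin n → K[X])
    (hf : ∀ j, ∑ k : Fin (n + 1), Q k * (T α ^ (k : ℕ) * derivative^[(k : ℕ)] (f j)) = 0)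
    (hdet : (Matrix.of fun j i : Fin n => derivative^[(i : ℕ)] (f j)).det ≠ 0) :
    Full α (comp α Q) := by
  refine ⟨Matrix.of fun j i : Fin n => T α ^ (i : ℕ) * derivative^[(i : ℕ)] (f j),
    fun j => sol_comp hQ (hf j), ?_⟩
  have h1 : (Matrix.of fun j i : Fin n => T α ^ (i : ℕ) * derivative^[(i : ℕ)] (f j)).det =
      (∏ i : Fin n, T α ^ (i : ℕ)) *
        (Matrix.of fun j i : Fin n => derivative^[(i : ℕ)] (f j)).det :=
    Matrix.det_mul_row (fun i : Fin n => T α ^ (i : ℕ)) _
  rw [h1]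
  exact mul_ne_zero (Finset.prod_ne_zero_iff.mpr fun i _ => pow_ne_zero _ T_ne) hdet

end companion

/-- From a full basis of rational solutions modulo `p` to a full family of polynomial solutions of
the companion system over any field of characteristic `p`. -/
theorem FullMod.full {p : ℕ} [Fact p.Prime] {m n : ℕ} {b : Fin (n + 1) → ℤ[X]} (h : FullMod b p)
    {K : Type*} [Field K] [CharP K p] {α : Fin m → K} {Q : Fin (n + 1) → K[X]}
    (hQ : Q (Fin.last n) = 1)
    (hbQ : ∀ k : Fin (n + 1), T α ^ (n - (k : ℕ)) * (b k).map (Int.castRingHom K) =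
      (b (Fin.last n)).map (Int.castRingHom K) * Q k)
    (hb : (b (Fin.last n)).map (Int.castRingHom K) ≠ 0) : Full α (comp α Q) := by
  let ι : ZMod p →+* K := ZMod.castHom (dvd_refl p) K
  have hι : Function.Injective ι := ι.injective
  have hcomp : ι.comp (Int.castRingHom (ZMod p)) = Int.castRingHom K := RingHom.ext_int _ _
  have hb' : (b (Fin.last n)).map (Int.castRingHom (ZMod p)) ≠ 0 := by
    intro h0
    apply hb
    rw [← hcomp, ← Polynomial.map_map, h0, Polynomial.map_zero]
  obtain ⟨f, hf, hdet⟩ := h.exists_poly hb'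
  have hiter : ∀ j i, (derivative^[i] (f j)).map ι = derivative^[i] ((f j).map ι) := by
    intro j i
    rw [Polynomial.iterate_derivative_map]
  refine full_comp hQ (fun j => (f j).map ι) (fun j => ?_) ?_
  · have h1 := congrArg (Polynomial.map ι) (hf j)
    simp only [Polynomial.map_sum, Polynomial.map_mul, Polynomial.map_map, hcomp, hiter,
      Polynomial.map_zero] at h1
    apply mul_left_cancel₀ hb
    rw [mul_zero, Finset.mul_sum]
    have h2 := congrArg (fun x => T α ^ n * x) h1
    simp only [mul_zero, Finset.mul_sum] at h2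
    rw [← h2]
    refine Finset.sum_congr rfl fun k _ => ?_
    have h3 : T α ^ n = T α ^ (k : ℕ) * T α ^ (n - (k : ℕ)) := by
      rw [← pow_add]
      congr 1
      have := k.isLt
      omega
    rw [h3]
    linear_combination (-(T α ^ (k : ℕ) * derivative^[(k : ℕ)] ((f j).map ι))) * hbQ k
  · have h2 : (Matrix.of fun j i : Fin n => derivative^[(i : ℕ)] ((f j).map ι)) =
        (mapRingHom ι).mapMatrix (Matrix.of fun j i : Fin n => derivative^[(i : ℕ)] (f j)) := by
      ext1 j i
      simp only [Matrix.of_apply, RingHom.mapMatrix_apply, Matrix.map_apply, coe_mapRingHom]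
      rw [hiter]
    rw [h2, ← RingHom.map_det]
    intro h0
    exact hdet ((Polynomial.map_eq_zero_iff hι).mp h0)

end Pool.Agent.W432.WB
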