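import Pool.Agent.W432.PC.Core

/-!
# Logarithmic connections on arbitrary vector bundles on the projective line

The system `T y' = B y`, `T = ∏ (x - α j)`, with a polynomial matrix `B`; the bundle is given by
integers `u i`, see `Pool.Agent.W432.WB.Infinity`.
-/

set_option autoImplicit false

open Polynomial

namespace Pool.Agent.W432.WB

open Pool.Agent.W432.PC (T Tc T_eq T_monic T_ne T_natDegree Tc_monic Tc_eval_ne Tc_eval_eq_zero
  T_eval_ne)

section defs

variable {R : Type*} [CommRing R] {n r : ℕ}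

/-- Polynomial solutions of `T y' = B y`. -/
def Sol (α : Fin n → R) (B : Matrix (Fin r) (Fin r) R[X]) (y : Fin r → R[X]) : Prop :=
  ∀ i, T α * derivative (y i) = B.mulVec y i

/-- A full family of polynomial solutions. -/
def Full (α : Fin n → R) (B : Matrix (Fin r) (Fin r) R[X]) : Prop :=
  ∃ Y : Matrix (Fin r) (Fin r) R[X], (∀ i, Sol α B (Y i)) ∧ Y.det ≠ 0

end defs

section field

variable {k : Type*} [Field k] {n r : ℕ} {α : Fin n → k} {B : Matrix (Fin r) (Fin r) k[X]}

/-- The residue matrix at `α j`. -/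
noncomputable def resMat (α : Fin n → k) (B : Matrix (Fin r) (Fin r) k[X]) (j : Fin n) :
    Matrix (Fin r) (Fin r) k :=
  ((Tc α j).eval (α j))⁻¹ • B.map (Polynomial.eval (α j))

lemma Sol.add {y z : Fin r → k[X]} (hy : Sol α B y) (hz : Sol α B z) : Sol α B (y + z) := by
  intro i
  rw [Matrix.mulVec_add, Pi.add_apply, Pi.add_apply, derivative_add, mul_add, hy i, hz i]

lemma Sol.zero : Sol α B (0 : Fin r → k[X]) := by
  intro i
  simp

lemma Sol.smul {a : k[X]} (ha : derivative a = 0) {y : Fin r → k[X]} (hy : Sol α B y) :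
    Sol α B (a • y) := by
  intro i
  rw [Matrix.mulVec_smul, Pi.smul_apply, Pi.smul_apply, smul_eq_mul, smul_eq_mul, derivative_mul,
    ha, zero_mul, zero_add, ← hy i]
  ring

lemma Sol.of_smul {a : k[X]} (ha : derivative a = 0) (ha0 : a ≠ 0) {y : Fin r → k[X]}
    (hy : Sol α B (a • y)) : Sol α B y := by
  intro i
  have h := hy i
  rw [Matrix.mulVec_smul, Pi.smul_apply, Pi.smul_apply, smul_eq_mul, smul_eq_mul, derivative_mul,
    ha, zero_mul, zero_add] at h
  apply mul_left_cancel₀ ha0
  rw [← h]
  ring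

lemma Sol.sum {ι : Type*} (s : Finset ι) {y : ι → Fin r → k[X]} (hy : ∀ i ∈ s, Sol α B (y i)) :
    Sol α B (∑ i ∈ s, y i) := by
  classical
  induction s using Finset.induction_on with
  | empty => simpa using Sol.zero
  | insert a s ha ih =>
    rw [Finset.sum_insert ha]
    exact (hy a (Finset.mem_insert_self a s)).add
      (ih fun i hi => hy i (Finset.mem_insert_of_mem hi))

/-- Key local identity: if `y = τ ^ e z` is a solution, `τ = X - x₀`, then
`T (e z + τ z') = τ B z`. -/
lemma local_eq {x₀ : k} {e : ℕ} {y z : Fin r → k[X]} (hy : Sol α B y)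
    (hz : ∀ i, y i = (X - C x₀) ^ e * z i) (i : Fin r) :
    T α * ((e : k[X]) * z i + (X - C x₀) * derivative (z i)) =
      (X - C x₀) * B.mulVec z i := by
  have hne : (X - C x₀ : k[X]) ^ e ≠ 0 := pow_ne_zero _ (X_sub_C_ne_zero x₀)
  have hyz : y = ((X - C x₀) ^ e) • z := by
    ext1 i; rw [hz i]; rfl
  have h := hy i
  rw [hyz, Matrix.mulVec_smul, Pi.smul_apply, Pi.smul_apply, smul_eq_mul, smul_eq_mul,
    derivative_mul] at h
  apply mul_left_cancel₀ hne
  have h2 : (X - C x₀) * derivative ((X - C x₀) ^ e) = (e : k[X]) * (X - C x₀) ^ e := by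
    rw [derivative_pow]
    cases e with
    | zero => simp
    | succ m =>
      simp only [derivative_sub, derivative_X, derivative_C, sub_zero, mul_one]
      simp only [Nat.add_sub_cancel]
      rw [show (C ((m + 1 : ℕ) : k) : k[X]) = ((m + 1 : ℕ) : k[X]) by simp]
      rw [pow_succ]
      ring
  calc (X - C x₀) ^ e * (T α * ((e : k[X]) * z i + (X - C x₀) * derivative (z i)))
      = T α * (((e : k[X]) * (X - C x₀) ^ e) * z i
          + (X - C x₀) * ((X - C x₀) ^ e * derivative (z i))) := by ring
    _ = (X - C x₀) * (T α * (derivative ((X - C x₀) ^ e) * z i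
          + (X - C x₀) ^ e * derivative (z i))) := by rw [← h2]; ring
    _ = (X - C x₀) ^ e * ((X - C x₀) * B.mulVec z i) := by rw [h]; ring

/-- At a singular point the leading coefficient vector is an eigenvector of the residue. -/
lemma local_sing (hα : Function.Injective α) (j : Fin n) {e : ℕ} {y z : Fin r → k[X]}
    (hy : Sol α B y) (hz : ∀ i, y i = (X - C (α j)) ^ e * z i) :
    (resMat α B j).mulVec (fun i => (z i).eval (α j)) = (e : k) • (fun i => (z i).eval (α j)) := by
  ext1 i
  have h := local_eq hy hz i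
  rw [T_eq j, mul_assoc] at h
  have h1 := mul_left_cancel₀ (X_sub_C_ne_zero (α j)) h
  have h2 := congrArg (Polynomial.eval (α j)) h1
  have h3 : (B.mulVec z i).eval (α j) =
      (B.map (Polynomial.eval (α j))).mulVec (fun i => (z i).eval (α j)) i := by
    simp only [Matrix.mulVec, dotProduct, eval_finset_sum, eval_mul, Matrix.map_apply]
  have hne := Tc_eval_ne hα j
  rw [h3] at h2
  simp only [eval_mul, eval_add, eval_natCast, eval_sub, eval_X, eval_C, sub_self, zero_mul,
    add_zero] at h2
  unfold resMat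
  rw [Matrix.smul_mulVec, Pi.smul_apply, Pi.smul_apply, smul_eq_mul, smul_eq_mul, ← h2,
    ← mul_assoc, inv_mul_cancel₀ hne, one_mul]

/-- At a regular point the order of vanishing is zero in `k`. -/
lemma local_reg {x₀ : k} (hx : ∀ j, x₀ ≠ α j) {e : ℕ} {y z : Fin r → k[X]}
    (hy : Sol α B y) (hz : ∀ i, y i = (X - C x₀) ^ e * z i) {i : Fin r}
    (hi : (z i).eval x₀ ≠ 0) : (e : k) = 0 := by
  have h := congrArg (Polynomial.eval x₀) (local_eq hy hz i)
  simp only [eval_mul, eval_add, eval_natCast, eval_sub, eval_X, eval_C, sub_self, zero_mul,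
    add_zero] at h
  have h1 := (mul_eq_zero.mp h).resolve_left (T_eval_ne hx)
  exact (mul_eq_zero.mp h1).resolve_right hi

end field

end Pool.Agent.W432.WB
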