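import Pool.Agent.W432.WB.PointK

set_option autoImplicit false

open Polynomial

namespace Pool.Agent.W432.WB

open Pool.Agent.W432.PC (T Tc T_eq T_monic T_ne T_natDegree Tc_monic Tc_eval_ne Tc_eval_eq_zero
  T_eval_ne T_map Tc_map)

section cm

variable {k : Type*} [Field k] {n : ℕ}

/-- A companion type matrix with diagonal `s + i`, superdiagonal `σ` and last row `- q`. -/
def cm (s σ : k) (q : Fin n → k) : Matrix (Fin n) (Fin n) k :=
  Matrix.of fun i l => (if i = l then s + (i : ℕ) else 0) + (if (l : ℕ) = i + 1 then σ else 0) -
    (if (i : ℕ) + 1 = n then q l else 0)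

/-- The characteristic polynomial of the companion type matrix, before the shift. -/
noncomputable def cpoly (σ : k) (q : Fin n → k) : k[X] :=
  descPochhammer k n + ∑ l : Fin n, C (q l * σ ^ (n - 1 - l)) * descPochhammer k l

lemma descPochhammer_degree (m : ℕ) : (descPochhammer k m).degree = m := by
  rw [degree_eq_natDegree (monic_descPochhammer k m).ne_zero, descPochhammer_natDegree]

lemma cpoly_sum_degree_lt (σ : k) (q : Fin n → k) :
    (∑ l : Fin n, C (q l * σ ^ (n - 1 - l)) * descPochhammer k l).degree < n := by
  refine (degree_sum_le _ _).trans_lt ?_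
  rw [Finset.sup_lt_iff (by exact_mod_cast WithBot.bot_lt_coe n)]
  intro l _
  refine (degree_mul_le _ _).trans_lt ?_
  rw [descPochhammer_degree]
  calc (C (q l * σ ^ (n - 1 - (l : ℕ))) : k[X]).degree + ((l : ℕ) : WithBot ℕ)
      ≤ 0 + ((l : ℕ) : WithBot ℕ) := by gcongr; exact degree_C_le
    _ = ((l : ℕ) : WithBot ℕ) := zero_add _
    _ < n := by exact_mod_cast l.isLt

lemma cpoly_monic (σ : k) (q : Fin n → k) : (cpoly σ q).Monic := by
  unfold cpoly
  refine (monic_descPochhammer k n).add_of_left ?_
  rw [descPochhammer_degree]
  exact cpoly_sum_degree_lt σ q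

lemma cpoly_natDegree (σ : k) (q : Fin n → k) : (cpoly σ q).natDegree = n := by
  have h : (cpoly σ q).degree = n := by
    unfold cpoly
    rw [degree_add_eq_left_of_degree_lt, descPochhammer_degree]
    rw [descPochhammer_degree]
    exact cpoly_sum_degree_lt σ q
  exact natDegree_eq_of_degree_eq_some h

theorem cm_charpoly (s σ : k) (hσ : σ ≠ 0) (q : Fin n → k) :
    (cm s σ q).charpoly = (cpoly σ q).comp (X - C s) := by
  classical
  have hmonic : ((cpoly σ q).comp (X - C s)).Monic := (cpoly_monic σ q).comp_X_sub_C s
  have hdeg : ((cpoly σ q).comp (X - C s)).natDegree = n := by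
    rw [natDegree_comp, natDegree_X_sub_C, mul_one, cpoly_natDegree]
  refine eq_of_monic_of_dvd_of_natDegree_le hmonic (Matrix.charpoly_monic _) ?_ ?_
  · rcases Nat.eq_zero_or_pos n with h0 | hn
    · subst h0
      have : (cpoly σ q).comp (X - C s) = 1 := by
        apply eq_one_of_monic_natDegree_zero hmonic hdeg
      rw [this]
      exact one_dvd _
    · let v : Fin n → k[X] := fun l => C (σ ^ (n - 1 - l)) *
        (descPochhammer k (l : ℕ)).comp (X - C s)
      let i₀ : Fin n := ⟨n - 1, by omega⟩
      let z₀ : Fin n := ⟨0, hn⟩
      have hstep : ∀ i : Fin n,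
          (X - C s - ((i : ℕ) : k[X])) * (descPochhammer k (i : ℕ)).comp (X - C s) =
          (descPochhammer k ((i : ℕ) + 1)).comp (X - C s) := by
        intro i
        rw [descPochhammer_succ_right, mul_comp, sub_comp, X_comp, natCast_comp]
        ring
      have hmul : (cm s σ q).charmatrix.mulVec v =
          Pi.single i₀ ((cpoly σ q).comp (X - C s)) := by
        ext1 i
        have h1 : (cm s σ q).charmatrix.mulVec v i =
            X * v i - ∑ l, C (cm s σ q i l) * v l := by
          simp only [Matrix.charmatrix, Matrix.mulVec, dotProduct, Matrix.sub_apply,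
            Matrix.scalar_apply, Matrix.diagonal_apply, RingHom.mapMatrix_apply,
            Matrix.map_apply, sub_mul, Finset.sum_sub_distrib, ite_mul, zero_mul,
            Finset.sum_ite_eq, Finset.mem_univ, if_true]
        have h2 : ∑ l, C (cm s σ q i l) * v l = (C s + ((i : ℕ) : k[X])) * v i +
            (∑ l : Fin n, if (l : ℕ) = i + 1 then C σ * v l else 0) -
            (if (i : ℕ) + 1 = n then ∑ l, C (q l) * v l else 0) := by
          have h3 : ∀ l, C (cm s σ q i l) * v l =
              (if i = l then (C s + ((i : ℕ) : k[X])) * v l else 0) +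
              (if (l : ℕ) = i + 1 then C σ * v l else 0) -
              (if (i : ℕ) + 1 = n then C (q l) * v l else 0) := by
            intro l
            simp only [cm, Matrix.of_apply]
            split_ifs <;> simp [add_mul, sub_mul]
          simp only [h3, Finset.sum_add_distrib, Finset.sum_sub_distrib, Finset.sum_ite_eq,
            Finset.mem_univ, if_true]
          congr 1
          split_ifs with h4
          · rfl
          · simp
        rw [h1, h2]
        by_cases hi : (i : ℕ) + 1 = n
        · have hi' : i = i₀ := Fin.ext (by simp only [i₀]; omega)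
          rw [if_pos hi, hi', Pi.single_eq_same]
          have h3 : (∑ l : Fin n, if (l : ℕ) = i₀ + 1 then C σ * v l else 0) = 0 := by
            refine Finset.sum_eq_zero fun l _ => ?_
            rw [if_neg]
            have := l.isLt
            simp only [i₀]
            omega
          rw [h3]
          have h4 := hstep i₀
          have h5 : (i₀ : ℕ) = n - 1 := rfl
          have h6 : v i₀ = (descPochhammer k (n - 1)).comp (X - C s) := by
            simp only [v, h5, Nat.sub_self, pow_zero, map_one, one_mul]
          rw [h5, Nat.sub_add_cancel hn, ← h6] at h4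
          unfold cpoly
          rw [add_comp, Polynomial.sum_comp, ← h4]
          have h7 : ∀ l : Fin n, (C (q l * σ ^ (n - 1 - (l : ℕ))) *
              descPochhammer k (l : ℕ)).comp (X - C s) = C (q l) * v l := by
            intro l
            simp only [v, mul_comp, C_comp, map_mul]
            ring
          simp only [h7, h5]
          ring
        · have hi' : i ≠ i₀ := fun h => hi (by rw [h]; simp only [i₀]; omega)
          have hlt : (i : ℕ) + 1 < n := by have := i.isLt; omega
          rw [if_neg hi, Pi.single_eq_of_ne hi']
          have h3 : (∑ l : Fin n, if (l : ℕ) = i + 1 then C σ * v l else 0) =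
              C σ * v ⟨(i : ℕ) + 1, hlt⟩ := by
            rw [Finset.sum_eq_single ⟨(i : ℕ) + 1, hlt⟩]
            · simp
            · intro l _ hl
              rw [if_neg]
              intro h
              exact hl (Fin.ext h)
            · intro h; exact absurd (Finset.mem_univ _) h
          rw [h3]
          have h4 := hstep i
          simp only [v]
          rw [← h4]
          have h5 : n - 1 - (i : ℕ) = (n - 1 - ((i : ℕ) + 1)) + 1 := by omega
          rw [h5, pow_succ]
          simp only [map_mul]
          ring
      have hadj : (cm s σ q).charmatrix.adjugate.mulVec ((cm s σ q).charmatrix.mulVec v) =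
          (cm s σ q).charpoly • v := by
        rw [Matrix.mulVec_mulVec, Matrix.adjugate_mul, Matrix.smul_mulVec, Matrix.one_mulVec]
        rfl
      have h0 := congrFun hadj z₀
      rw [hmul, Pi.smul_apply, smul_eq_mul] at h0
      have h1 : v z₀ = C (σ ^ (n - 1)) := by
        simp only [v, z₀, Nat.sub_zero, descPochhammer_zero, one_comp, mul_one]
      rw [h1] at h0
      have h2 : (cpoly σ q).comp (X - C s) ∣ (cm s σ q).charpoly * C (σ ^ (n - 1)) := by
        rw [← h0]
        simp only [Matrix.mulVec, dotProduct_single]
        exact Dvd.intro_left _ rfl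
      have hu : IsUnit (C (σ ^ (n - 1)) : k[X]) :=
        isUnit_C.mpr (isUnit_iff_ne_zero.mpr (pow_ne_zero _ hσ))
      exact (hu.dvd_mul_right).mp h2
  · rw [hdeg, Matrix.charpoly_natDegree_eq_dim, Fintype.card_fin]

end cm

end Pool.Agent.W432.WB
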