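import Pool.Agent.W432.WB.Count

set_option autoImplicit false

open Polynomial

namespace Pool.Agent.W432.WB

open Pool.Agent.W432.PC (T Tc T_eq T_monic T_ne T_natDegree Tc_monic Tc_eval_ne Tc_eval_eq_zero
  T_eval_ne LocBasis multiset_nat_eq sum_comp_eq_of_multiset card_filter_eq_of_multiset
  prod_dvd_of_dvd)

section

variable {k : Type*} [Field k] {n r : ℕ} {α : Fin n → k} {B : Matrix (Fin r) (Fin r) k[X]}

/-- Core inequality in characteristic `p`: from a full family of polynomial solutions one gets a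
solution of small degree with prescribed vanishing at the finite singular points. -/
theorem core [IsAlgClosed k] (hα : Function.Injective α) {p : ℕ} [Fact p.Prime] [CharP k p]
    (hfull : ∃ Y : Matrix (Fin r) (Fin r) k[X], (∀ i, Sol α B (Y i)) ∧ Y.det ≠ 0)
    (e : Fin n → Fin r → ℕ) (he : ∀ j i, e j i < p)
    (hA : ∀ j, (resMat α B j).charpoly = ∏ i, (X - C ((e j i : ℕ) : k)))
    {u : Fin r → ℕ} (hB : WDeg n B u)
    (f : Fin r → ℕ) (hf : ∀ i, f i < p)
    (hAs : (infMat n B u).charpoly = ∏ i, (X - C ((f i : ℕ) : k)))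
    (c : ℤ) (hc : (p : ℤ) * c = ∑ j, ∑ i, (e j i : ℤ) + ∑ i, (u i : ℤ) - ∑ i, (f i : ℤ))
    (hh : Fin n → ℕ) (hhp : ∀ j, hh j ≤ p) (D : ℤ)
    (hcount : ∑ j, ((Finset.univ.filter fun i => e j i < hh j).card : ℤ) + c <
      ∑ i, ((D - f i) / p + 1)) :
    ∃ W : Fin r → k[X], W ≠ 0 ∧ Sol α B W ∧ (∀ i, ((sh u W i).natDegree : ℤ) ≤ D) ∧
      ∀ i, ∏ j, (X - C (α j)) ^ hh j ∣ W i := by
  classical
  have hp : 0 < p := (Fact.out : p.Prime).pos
  have hp' : (0 : ℤ) < p := by exact_mod_cast hp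
  obtain ⟨Y₀, hY₀, hdet₀⟩ := hfull
  obtain ⟨Y, h⟩ := exists_minFam u hY₀ hdet₀
  choose e₁ P z hb using fun j => h.exists_locBasis hα p j
  have hms : ∀ j, (Finset.univ : Finset (Fin r)).val.map (e₁ j) =
      (Finset.univ : Finset (Fin r)).val.map (e j) := by
    intro j
    refine multiset_nat_eq (k := k) (hb j).lt (he j) ?_
    rw [← hA j, ← h.charpoly_loc hα (hb j)]
  have hms' : (Finset.univ : Finset (Fin r)).val.map (fun i => vdeg u (Y i) % p) =
      (Finset.univ : Finset (Fin r)).val.map f := by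
    refine multiset_nat_eq (k := k) (fun i => Nat.mod_lt _ hp) hf ?_
    rw [← hAs, h.charpoly_inf hB p]
    refine Finset.prod_congr rfl fun i _ => ?_
    congr 2
    rw [CharP.natCast_eq_natCast k p]
    exact Nat.mod_modEq _ _
  -- degrees
  have hdeg : (∑ i, (vdeg u (Y i) : ℤ)) ≤ ∑ j, ∑ i, (e j i : ℤ) + ∑ i, (u i : ℤ) := by
    have h1 := h.sum_vdeg_le hB p
    rw [h.natDegree_det hα p hb] at h1
    have h2 : ∑ j, ∑ i, e₁ j i = ∑ j, ∑ i, e j i :=
      Finset.sum_congr rfl fun j _ => sum_comp_eq_of_multiset (fun a => a) (hms j)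
    rw [h2] at h1
    exact_mod_cast h1
  have hmod : ∑ i, ((vdeg u (Y i) % p : ℕ) : ℤ) = ∑ i, (f i : ℤ) :=
    sum_comp_eq_of_multiset (fun a => (a : ℤ)) hms'
  have hdiv : ∑ i, ((vdeg u (Y i) / p : ℕ) : ℤ) ≤ c := by
    have h1 : (p : ℤ) * ∑ i, ((vdeg u (Y i) / p : ℕ) : ℤ) + ∑ i, ((vdeg u (Y i) % p : ℕ) : ℤ) =
        ∑ i, (vdeg u (Y i) : ℤ) := by
      rw [Finset.mul_sum, ← Finset.sum_add_distrib]
      refine Finset.sum_congr rfl fun i _ => ?_
      exact_mod_cast Nat.div_add_mod (vdeg u (Y i)) p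
    rw [hmod] at h1
    have h2 : (p : ℤ) * ∑ i, ((vdeg u (Y i) / p : ℕ) : ℤ) ≤ p * c := by
      rw [hc]; linarith
    exact le_of_mul_le_mul_left h2 hp'
  have hsum : ∑ i, ((D - vdeg u (Y i)) / p + 1) =
      ∑ i, ((D - f i) / p + 1) - ∑ i, ((vdeg u (Y i) / p : ℕ) : ℤ) := by
    rw [← sum_comp_eq_of_multiset (fun a => (D - (a : ℤ)) / p + 1) hms', ← Finset.sum_sub_distrib]
    refine Finset.sum_congr rfl fun i _ => ?_
    have h1 : (vdeg u (Y i) : ℤ) = (vdeg u (Y i) % p : ℕ) + (vdeg u (Y i) / p : ℕ) * (p : ℤ) := by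
      have := Nat.mod_add_div (vdeg u (Y i)) p
      rw [mul_comm] at this
      exact_mod_cast this.symm
    have h2 : (D - vdeg u (Y i)) / p = (D - (vdeg u (Y i) % p : ℕ)) / p - (vdeg u (Y i) / p : ℕ) := by
      conv_lhs => rw [h1]
      rw [← sub_sub, Int.sub_mul_ediv_right _ _ hp'.ne']
    rw [h2]
    ring
  have hcount' : ∑ j, ((Finset.univ.filter fun i => e₁ j i < hh j).card : ℤ) <
      ∑ i, ((D - vdeg u (Y i)) / p + 1) := by
    rw [hsum]
    have h1 : ∑ j, ((Finset.univ.filter fun i => e₁ j i < hh j).card : ℤ) =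
        ∑ j, ((Finset.univ.filter fun i => e j i < hh j).card : ℤ) :=
      Finset.sum_congr rfl fun j _ => by rw [card_filter_eq_of_multiset _ (hms j)]
    rw [h1]
    linarith
  obtain ⟨W, hW0, hWs, hWd, hWv⟩ := exists_small h hb hh hhp D hcount'
  exact ⟨W, hW0, hWs, hWd, fun i => prod_dvd_of_dvd hα hh fun j => hWv j i⟩

end

end Pool.Agent.W432.WB
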