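import Pool.Agent.W432.WB.Local

set_option autoImplicit false

open Polynomial

namespace Pool.Agent.W432.WB

open Pool.Agent.W432.PC (T Tc T_eq T_monic T_ne T_natDegree Tc_monic Tc_eval_ne Tc_eval_eq_zero
  T_eval_ne LocBasis gpoly gpoly_coeff gpoly_natDegree_le gpoly_congr derivative_gpoly
  prod_dvd_of_dvd natDegree_prod_pow)

section

variable {k : Type*} [Field k] {n r : ℕ} {α : Fin n → k} {B : Matrix (Fin r) (Fin r) k[X]}

/-- Existence of a polynomial solution of small degree with prescribed vanishing. -/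
theorem exists_small {wt : Fin r → ℕ} {Y : Matrix (Fin r) (Fin r) k[X]}
    (h : MinFam α B wt Y) {p : ℕ} [Fact p.Prime] [CharP k p]
    {e : Fin n → Fin r → ℕ} {P : Fin n → Matrix (Fin r) (Fin r) k}
    {z : Fin n → Matrix (Fin r) (Fin r) k[X]} (hb : ∀ j, LocBasis (α j) p Y (e j) (P j) (z j))
    (hh : Fin n → ℕ) (hhp : ∀ j, hh j ≤ p) (D : ℤ)
    (hcount : ∑ j, ((Finset.univ.filter fun i => e j i < hh j).card : ℤ) <
      ∑ i, ((D - vdeg wt (Y i)) / p + 1)) :
    ∃ W : Fin r → k[X], W ≠ 0 ∧ Sol α B W ∧ (∀ i, ((sh wt W i).natDegree : ℤ) ≤ D) ∧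
      ∀ j i, (X - C (α j)) ^ hh j ∣ W i := by
  classical
  have hp : 0 < p := (Fact.out : p.Prime).pos
  let m : Fin r → ℕ := fun i => ((D - vdeg wt (Y i)) / p + 1).toNat
  -- the degree bound
  have hm : ∀ i (t : Fin (m i)), ((p * t.val : ℕ) : ℤ) + vdeg wt (Y i) ≤ D := by
    intro i t
    have h1 : (t.val : ℤ) < (D - vdeg wt (Y i)) / p + 1 := by
      have := t.isLt
      simp only [m] at this
      omega
    have h2 : (t.val : ℤ) ≤ (D - vdeg wt (Y i)) / p := by omega
    have h3 : (t.val : ℤ) * p ≤ D - vdeg wt (Y i) :=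
      (Int.le_ediv_iff_mul_le (by exact_mod_cast hp)).mp h2
    push_cast
    linarith
  -- the linear map
  let f : ((Σ i, Fin (m i)) → k) →ₗ[k] ((Σ j, {l : Fin r // e j l < hh j}) → k) :=
    { toFun := fun u c => Matrix.vecMul
        (fun i => (gpoly p (fun t : Fin (m i) => u ⟨i, t⟩)).eval (α c.1)) (P c.1)⁻¹ c.2.1
      map_add' := by
        intro u v
        ext1 c
        have h1 : (fun i => (gpoly p (fun t : Fin (m i) => (u + v) ⟨i, t⟩)).eval (α c.1)) =
            (fun i => (gpoly p (fun t : Fin (m i) => u ⟨i, t⟩)).eval (α c.1)) +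
            (fun i => (gpoly p (fun t : Fin (m i) => v ⟨i, t⟩)).eval (α c.1)) := by
          ext1 i
          simp only [gpoly, Pi.add_apply, map_add, add_mul, Finset.sum_add_distrib, eval_add]
        rw [h1, Matrix.add_vecMul]
        rfl
      map_smul' := by
        intro a u
        ext1 c
        have h1 : (fun i => (gpoly p (fun t : Fin (m i) => (a • u) ⟨i, t⟩)).eval (α c.1)) =
            a • (fun i => (gpoly p (fun t : Fin (m i) => u ⟨i, t⟩)).eval (α c.1)) := by
          ext1 i
          simp only [gpoly, Pi.smul_apply, smul_eq_mul, map_mul, eval_finsetSum, eval_mul, eval_C,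
            Finset.mul_sum, mul_assoc]
        rw [h1, Matrix.smul_vecMul]
        rfl }
  have hdim : Module.finrank k ((Σ j, {l : Fin r // e j l < hh j}) → k) <
      Module.finrank k ((Σ i, Fin (m i)) → k) := by
    rw [Module.finrank_fintype_fun_eq_card, Module.finrank_fintype_fun_eq_card,
      Fintype.card_sigma, Fintype.card_sigma]
    have h1 : ∀ j, Fintype.card {l : Fin r // e j l < hh j} =
        (Finset.univ.filter fun i => e j i < hh j).card := fun j => Fintype.card_subtype _
    simp only [h1, Fintype.card_fin]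
    have h2 : ∑ i, ((D - vdeg wt (Y i)) / p + 1) ≤ ∑ i, (m i : ℤ) :=
      Finset.sum_le_sum fun i _ => Int.self_le_toNat _
    have h3 := lt_of_lt_of_le hcount h2
    exact_mod_cast h3
  obtain ⟨u, hu, hu0⟩ := (Submodule.ne_bot_iff _).mp (LinearMap.ker_ne_bot_of_finrank_lt hdim (f := f))
  rw [LinearMap.mem_ker] at hu
  let g : Fin r → k[X] := fun i => gpoly p (fun t : Fin (m i) => u ⟨i, t⟩)
  let W : Fin r → k[X] := Matrix.vecMul g Y
  have hWeq : W = ∑ i, g i • Y i := by
    ext1 l
    rw [Finset.sum_apply]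
    rfl
  refine ⟨W, ?_, ?_, ?_, ?_⟩
  · intro hW
    have h1 := Matrix.eq_zero_of_vecMul_eq_zero h.det hW
    apply hu0
    ext1 ⟨i, t⟩
    have h2 := congrFun h1 i
    have h3 := gpoly_coeff hp (fun t : Fin (m i) => u ⟨i, t⟩) t
    have h4 : gpoly p (fun t : Fin (m i) => u ⟨i, t⟩) = 0 := h2
    rw [h4] at h3
    exact h3.symm
  · rw [hWeq]
    exact Sol.sum _ fun i _ => (h.sol i).smul (derivative_gpoly _)
  · intro l
    have h1 : sh wt W l = ∑ i, g i * sh wt (Y i) l := by
      rw [hWeq, sh_sum]
      simp only [sh_smul]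
    have hD : ∀ i, m i ≠ 0 → (0:ℤ) ≤ D := by
      intro i hi
      have h2 := hm i ⟨0, Nat.pos_of_ne_zero hi⟩
      simp only [mul_zero, Nat.cast_zero, zero_add] at h2
      exact le_trans (Int.natCast_nonneg _) h2
    have hD0 : (0:ℤ) ≤ D := by
      by_contra hneg
      apply hu0
      ext1 ⟨i, t⟩
      have : m i ≠ 0 := fun h0 => by
        have := t.isLt
        omega
      exact absurd (hD i this) hneg
    obtain ⟨D', rfl⟩ := Int.eq_ofNat_of_zero_le hD0
    have h2 : (sh wt W l).natDegree ≤ D' := by
      rw [h1]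
      refine natDegree_sum_le_of_forall_le _ _ fun i _ => ?_
      by_cases hmi : m i = 0
      · have h3 : g i = 0 := by
          simp only [g, gpoly]
          refine Finset.sum_eq_zero fun t _ => ?_
          have := t.isLt
          omega
        rw [h3, zero_mul, natDegree_zero]
        exact Nat.zero_le _
      · have hvd : vdeg wt (Y i) ≤ D' := by
          have h3 := hm i ⟨0, Nat.pos_of_ne_zero hmi⟩
          simp only [mul_zero, Nat.cast_zero, zero_add] at h3
          exact_mod_cast h3
        have h3 : (g i).natDegree ≤ D' - vdeg wt (Y i) := by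
          refine gpoly_natDegree_le _ fun t => ?_
          have := hm i t
          have h4 : p * t.val + vdeg wt (Y i) ≤ D' := by exact_mod_cast this
          omega
        have h4 := natDegree_le_vdeg wt (Y i) l
        exact (natDegree_mul_le.trans (by omega))
    exact_mod_cast h2
  · intro j
    -- value vector at α j in the adapted basis
    let v : Fin r → k := fun i => (g i).eval (α j)
    let μ : Fin r → k := Matrix.vecMul v (P j)⁻¹
    have hμ : ∀ l, e j l < hh j → μ l = 0 := by
      intro l hl
      have := congrFun hu ⟨j, ⟨l, hl⟩⟩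
      exact this
    have hPu : IsUnit (P j).det := isUnit_iff_ne_zero.mpr (hb j).detP
    have hv : Matrix.vecMul μ (P j) = v := by
      rw [Matrix.vecMul_vecMul, Matrix.nonsing_inv_mul _ hPu, Matrix.vecMul_one]
    intro l
    have h1 : W l = ∑ i, (g i - C (v i)) * Y i l + ∑ i, C (v i) * Y i l := by
      rw [← Finset.sum_add_distrib]
      have h0 : W l = ∑ i, g i * Y i l := rfl
      rw [h0]
      exact Finset.sum_congr rfl fun i _ => by ring
    rw [h1]
    refine dvd_add ?_ ?_
    · refine Finset.dvd_sum fun i _ => ?_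
      exact ((pow_dvd_pow _ (hhp j)).trans (gpoly_congr _ _)).mul_right _
    · have h2 : ∑ i, C (v i) * Y i l = ∑ i, C (μ i) * ((X - C (α j)) ^ e j i * z j i l) := by
        simp only [← (hb j).eq]
        rw [← hv]
        simp only [Matrix.vecMul, dotProduct, map_sum, map_mul, Finset.mul_sum, Finset.sum_mul]
        rw [Finset.sum_comm]
        exact Finset.sum_congr rfl fun a _ => Finset.sum_congr rfl fun b _ => by ring
      rw [h2]
      refine Finset.dvd_sum fun i _ => ?_
      by_cases hi : e j i < hh j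
      · rw [hμ i hi]; simp
      · exact ((pow_dvd_pow _ (not_lt.mp hi)).mul_right _).mul_left _

end

end Pool.Agent.W432.WB
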