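import Pool.Agent.W432.WB.Oper

set_option autoImplicit false

open Polynomial

namespace Pool.Agent.W432.WB

open Pool.Agent.W432.PC (T Tc T_eq T_monic T_ne T_natDegree Tc_monic Tc_eval_ne Tc_eval_eq_zero
  T_eval_ne T_map Tc_map)

section

variable {k : Type*} [Field k] {m r : ℕ} {α : Fin m → k}

lemma sum_eval_div (hα : Function.Injective α) (hm : 0 < m) {P : k[X]}
    (hP : P.natDegree ≤ m - 1) :
    ∑ j, ((Tc α j).eval (α j))⁻¹ * P.eval (α j) = P.coeff (m - 1) := by
  classical
  have h1 : P.degree < (Finset.univ : Finset (Fin m)).card := by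
    rw [Finset.card_univ, Fintype.card_fin]
    refine lt_of_le_of_lt degree_le_natDegree ?_
    exact_mod_cast (by omega : P.natDegree < m)
  have h2 := Lagrange.coeff_eq_sum (s := Finset.univ) (v := α) (fun _ _ _ _ h => hα h) h1
  rw [Finset.card_univ, Fintype.card_fin] at h2
  rw [h2]
  refine Finset.sum_congr rfl fun j _ => ?_
  have h3 : (Tc α j).eval (α j) = ∏ i ∈ Finset.univ.erase j, (α j - α i) := by
    unfold Tc
    rw [eval_prod]
    exact Finset.prod_congr rfl fun i _ => by simp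
  rw [h3, div_eq_mul_inv, mul_comm]

lemma trace_identity (hα : Function.Injective α) (hm : 0 < m) {B : Matrix (Fin r) (Fin r) k[X]}
    {u : Fin r → ℕ} (hB : WDeg m B u) :
    ∑ j, (resMat α B j).trace + ∑ i, (u i : k) = (infMat m B u).trace := by
  have h1 : ∀ i, (B i i).natDegree ≤ m - 1 := by
    intro i
    by_cases h0 : B i i = 0
    · rw [h0]; simp
    · have h2 := hB i i
      rw [natDegree_mul (pow_ne_zero _ X_ne_zero) h0, natDegree_X_pow] at h2
      omega
  simp only [Matrix.trace, Matrix.diag, resMat, infMat, Matrix.smul_apply, Matrix.map_apply,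
    smul_eq_mul, Matrix.of_apply, if_true]
  rw [Finset.sum_comm, Finset.sum_add_distrib]
  congr 1
  refine Finset.sum_congr rfl fun i _ => ?_
  rw [sum_eval_div hα hm (h1 i), show m + u i = (m - 1) + (1 + u i) by omega, coeff_X_pow_mul]

lemma trace_of_charpoly {M : Matrix (Fin r) (Fin r) k} {μ : Fin r → k}
    (h : M.charpoly = ∏ l, (X - C (μ l))) : M.trace = ∑ l, μ l := by
  rw [Matrix.trace_eq_neg_charpoly_nextCoeff, h, prod_X_sub_C_nextCoeff, neg_neg]

/-- The Fuchs relation. -/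
theorem fuchs [CharZero k] {n : ℕ} (hn : 0 < n) (hm : 0 < m) (hα : Function.Injective α)
    {Q : Fin (n + 1) → k[X]} (hQ : Q (Fin.last n) = 1)
    (hdeg : ∀ i, (Q i).natDegree ≤ (n - i) * (m - 1)) {lam : Fin m → Fin n → ℚ}
    (hlam : ∀ j, indLoc α Q j =
      C ((derivative (T α)).eval (α j) ^ n) * ∏ l, (X - C ((lam j l : ℚ) : k)))
    {phi : Fin n → ℚ} (hphi : indInf m Q = ∏ l, (X - C ((phi l : ℚ) : k))) :
    ∑ j, ∑ l, lam j l + ∑ i, ((cw m n i : ℕ) : ℚ) =
      ∑ l, (phi l + (((n - 1) * (m - 1) : ℕ) : ℚ)) := by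
  have h1 : ∀ j, (resMat α (comp α Q) j).charpoly = ∏ l, (X - C ((lam j l : ℚ) : k)) := by
    intro j
    have h2 := C_mul_cpoly_loc hα hQ j
    rw [hlam j, derivative_T_eval] at h2
    exact mul_left_cancel₀ (C_ne_zero.mpr (pow_ne_zero _ (Tc_eval_ne hα j))) h2
  have h2 : (infMat m (comp α Q) (cw m n)).charpoly =
      ∏ l, (X - C (((phi l + (((n - 1) * (m - 1) : ℕ) : ℚ)) : ℚ) : k)) := by
    rw [charpoly_inf_comp hm hn α hQ, hphi, Polynomial.prod_comp]
    refine Finset.prod_congr rfl fun l _ => ?_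
    simp only [sub_comp, X_comp, C_comp, Rat.cast_add, Rat.cast_natCast, map_add]
    ring
  have h3 := trace_identity hα hm (WDeg_comp hm α hdeg)
  simp only [trace_of_charpoly (h1 _), trace_of_charpoly h2] at h3
  exact_mod_cast h3

end

end Pool.Agent.W432.WB
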