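import Pool.Agent.W432.WB.MinFam

set_option autoImplicit false

open Polynomial

namespace Pool.Agent.W432.WB

open Pool.Agent.W432.PC (T Tc T_eq T_monic T_ne T_natDegree Tc_monic Tc_eval_ne Tc_eval_eq_zero
  T_eval_ne det_updateRow_sum' derivative_pow_p derivative_pow_mul coeff_det_of_natDegree_le
  exists_relation_single exists_row_relation charpoly_of_eigenrows)

section

variable {k : Type*} [Field k] {n r : ℕ} {α : Fin n → k} {B : Matrix (Fin r) (Fin r) k[X]}

/-- The residue matrix at infinity of the system in the weights `u`. -/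
noncomputable def infMat (n : ℕ) (B : Matrix (Fin r) (Fin r) k[X]) (u : Fin r → ℕ) :
    Matrix (Fin r) (Fin r) k :=
  Matrix.of fun i l => (X ^ (1 + u i) * B i l).coeff (n + u l) + if i = l then (u i : k) else 0

/-- The degree condition: the system is logarithmic at infinity in the weights `u`. -/
def WDeg (n : ℕ) (B : Matrix (Fin r) (Fin r) k[X]) (u : Fin r → ℕ) : Prop :=
  ∀ i l, (X ^ (1 + u i) * B i l).natDegree ≤ n + u l

lemma infinity_eq {u : Fin r → ℕ} (hB : WDeg n B u) {y : Fin r → k[X]} (hy : Sol α B y) {d : ℕ}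
    (hd : ∀ i, (sh u y i).natDegree ≤ d) :
    (infMat n B u).mulVec (fun i => (sh u y i).coeff d) =
      (d : k) • (fun i => (sh u y i).coeff d) := by
  ext1 i
  have h1 : T α * (X * derivative (sh u y i)) =
      C (u i : k) * (T α * sh u y i) + ∑ l, X ^ (1 + u i) * B i l * y l := by
    have h2 := hy i
    have h3 : ∑ l, X ^ (1 + u i) * B i l * y l = X ^ (1 + u i) * (T α * derivative (y i)) := by
      rw [h2, Matrix.mulVec, dotProduct, Finset.mul_sum]
      exact Finset.sum_congr rfl fun l _ => by ring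
    rw [h3, sh_apply, derivative_mul]
    have h4 : X * derivative (X ^ u i : k[X]) = C (u i : k) * X ^ u i := by
      rw [derivative_X_pow]
      cases u i with
      | zero => simp
      | succ m =>
        simp only [Nat.add_sub_cancel]
        rw [pow_succ]
        ring
    calc T α * (X * (derivative (X ^ u i) * y i + X ^ u i * derivative (y i)))
        = T α * ((X * derivative (X ^ u i)) * y i + X * X ^ u i * derivative (y i)) := by ring
      _ = _ := by rw [h4]; ring
  have h2 := congrArg (fun q => q.coeff (n + d)) h1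
  simp only [coeff_add, coeff_C_mul, finsetSum_coeff] at h2
  have hT : (T α).coeff n = 1 := by
    have h6 := (T_monic (α := α)).coeff_natDegree
    rwa [T_natDegree] at h6
  have h3 : (X * derivative (sh u y i)).natDegree ≤ d := by
    by_cases h0 : derivative (sh u y i) = 0
    · rw [h0]; simp
    · rw [natDegree_mul X_ne_zero h0, natDegree_X]
      have h4 := natDegree_derivative_lt (p := sh u y i) (fun h00 => h0 (by
        rw [eq_C_of_natDegree_eq_zero h00]; simp))
      have := hd i
      omega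
  have h4 : (X * derivative (sh u y i)).coeff d = (d : k) * (sh u y i).coeff d := by
    cases d with
    | zero => simp
    | succ m =>
      rw [coeff_X_mul, coeff_derivative]
      push_cast
      ring
  have h5 : (T α * (X * derivative (sh u y i))).coeff (n + d) = (d : k) * (sh u y i).coeff d := by
    rw [coeff_mul_add_eq_of_natDegree_le T_natDegree.le h3, h4, hT, one_mul]
  have h6 : (T α * sh u y i).coeff (n + d) = (sh u y i).coeff d := by
    rw [coeff_mul_add_eq_of_natDegree_le T_natDegree.le (hd i), hT, one_mul]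
  have h7 : ∀ l, (X ^ (1 + u i) * B i l * y l).coeff (n + d) =
      (X ^ (1 + u i) * B i l).coeff (n + u l) * (sh u y l).coeff d := by
    intro l
    rw [← coeff_mul_add_eq_of_natDegree_le (hB i l) (hd l), sh_apply,
      show n + u l + d = (n + d) + u l by ring,
      show X ^ (1 + u i) * B i l * (X ^ u l * y l) = X ^ (1 + u i) * B i l * y l * X ^ u l by ring,
      coeff_mul_X_pow]
  rw [h5, h6] at h2
  simp only [h7] at h2
  rw [Pi.smul_apply, smul_eq_mul, h2]
  simp only [Matrix.mulVec, dotProduct, infMat, Matrix.of_apply, add_mul, Finset.sum_add_distrib,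
    ite_mul, zero_mul, Finset.sum_ite_eq, Finset.mem_univ, if_true]
  ring

/-- The leading vectors of a minimal family are independent. -/
lemma MinFam.lead_det {u : Fin r → ℕ} (hB : WDeg n B u) {Y : Matrix (Fin r) (Fin r) k[X]}
    (h : MinFam α B u Y) (p : ℕ) [Fact p.Prime] [CharP k p] :
    (Matrix.of fun i l => (sh u (Y i) l).coeff (vdeg u (Y i))).det ≠ 0 := by
  classical
  intro h0
  let c : Matrix (Fin r) (Fin r) k := Matrix.of fun i l => (sh u (Y i) l).coeff (vdeg u (Y i))
  have hc : ∀ i, (Matrix.mulVecLin (infMat n B u)) (c i) =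
      ((vdeg u (Y i) : ℕ) : k) • c i := by
    intro i
    rw [Matrix.mulVecLin_apply]
    exact infinity_eq hB (h.sol i) (natDegree_le_vdeg u (Y i))
  obtain ⟨l, hl, hsum, ν, hν⟩ := exists_relation_single (Matrix.mulVecLin (infMat n B u)) c
    (fun i => ((vdeg u (Y i) : ℕ) : k)) hc (exists_row_relation c h0)
  have hne : (Finset.univ.filter fun i => l i ≠ 0).Nonempty := by
    obtain ⟨i, hi⟩ := Function.ne_iff.mp hl
    exact ⟨i, Finset.mem_filter.mpr ⟨Finset.mem_univ i, hi⟩⟩
  obtain ⟨i₀, hi₀, hmax⟩ := Finset.exists_max_image _ (fun i => vdeg u (Y i)) hne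
  have hi₀' : l i₀ ≠ 0 := (Finset.mem_filter.mp hi₀).2
  have hmax' : ∀ i, l i ≠ 0 → vdeg u (Y i) ≤ vdeg u (Y i₀) := fun i hi =>
    hmax i (Finset.mem_filter.mpr ⟨Finset.mem_univ i, hi⟩)
  -- the new vector
  let g : Fin r → k[X] := fun i => C (l i) * X ^ (vdeg u (Y i₀) - vdeg u (Y i))
  let Z : Fin r → k[X] := ∑ i, g i • Y i
  have hg : ∀ i, derivative (g i) = 0 := by
    intro i
    by_cases hi : l i = 0
    · simp [g, hi]
    · have h1 : ((vdeg u (Y i) : ℕ) : k) = ((vdeg u (Y i₀) : ℕ) : k) := by
        rw [hν i hi, hν i₀ hi₀']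
      have h2 : p ∣ vdeg u (Y i₀) - vdeg u (Y i) := by
        rw [← CharP.cast_eq_zero_iff k p, Nat.cast_sub (hmax' i hi), h1, sub_self]
      simp only [g, derivative_mul, derivative_C, zero_mul, zero_add]
      rw [derivative_pow_mul (p := p) X h2, mul_zero]
  have hsolZ : Sol α B Z := Sol.sum _ fun i _ => (h.sol i).smul (hg i)
  have hdetZ : (Y.updateRow i₀ Z).det ≠ 0 := by
    rw [det_updateRow_sum' Y g i₀]
    refine mul_ne_zero ?_ h.det
    simp only [g, Nat.sub_self, pow_zero, mul_one]
    exact C_ne_zero.mpr hi₀'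
  have h1 := h.exchange i₀ hsolZ hdetZ
  have hZj : ∀ j, sh u Z j = ∑ i, g i * sh u (Y i) j := by
    intro j
    simp only [Z, sh_sum, sh_smul]
  have hZdeg : ∀ j, (sh u Z j).natDegree ≤ vdeg u (Y i₀) := by
    intro j
    rw [hZj]
    simp only [g]
    refine natDegree_sum_le_of_forall_le _ _ fun i _ => ?_
    by_cases hi : l i = 0
    · simp [hi]
    · rw [mul_assoc]
      refine (natDegree_C_mul_le _ _).trans (natDegree_mul_le.trans ?_)
      rw [natDegree_X_pow]
      have := hmax' i hi
      have := natDegree_le_vdeg u (Y i) j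
      omega
  have hZcoeff : ∀ j, (sh u Z j).coeff (vdeg u (Y i₀)) = 0 := by
    intro j
    have h2 : ∑ i, l i * (sh u (Y i) j).coeff (vdeg u (Y i)) = 0 := by
      have h3 := congrFun hsum j
      rw [Finset.sum_apply] at h3
      exact h3
    rw [hZj]
    simp only [g, finsetSum_coeff]
    rw [← h2]
    refine Finset.sum_congr rfl fun i _ => ?_
    rw [mul_assoc, coeff_C_mul]
    by_cases hi : l i = 0
    · simp [hi]
    · congr 1
      rw [coeff_X_pow_mul', if_pos (Nat.sub_le _ _), Nat.sub_sub_self (hmax' i hi)]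
  have hZ0 : Z ≠ 0 := by
    intro h00
    exact hdetZ (Matrix.det_eq_zero_of_row_eq_zero i₀ fun j => by
      rw [Matrix.updateRow_self, h00]; rfl)
  obtain ⟨j, hj⟩ := Function.ne_iff.mp hZ0
  have h2 : vdeg u Z < vdeg u (Y i₀) := by
    obtain ⟨j', -, hj'⟩ := Finset.exists_mem_eq_sup (Finset.univ : Finset (Fin r))
      ⟨j, Finset.mem_univ j⟩ (fun i => (sh u Z i).natDegree)
    have h3 : vdeg u Z = (sh u Z j').natDegree := hj'
    by_contra hle
    have h4 : (sh u Z j').natDegree = vdeg u (Y i₀) := by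
      have := hZdeg j'
      omega
    have h5 : sh u Z j' = 0 := by
      rw [← leadingCoeff_eq_zero, leadingCoeff, h4]
      exact hZcoeff j'
    have h6 : vdeg u Z = 0 := by rw [h3, h5]; simp
    have h7 : vdeg u (Y i₀) = 0 := by omega
    have h8 : (sh u Z j).natDegree = vdeg u (Y i₀) := by
      have := hZdeg j
      omega
    apply sh_ne (u := u) hj
    rw [← leadingCoeff_eq_zero, leadingCoeff, h8]
    exact hZcoeff j
  omega

lemma det_sh (u : Fin r → ℕ) (Y : Matrix (Fin r) (Fin r) k[X]) :
    (Matrix.of fun i l => sh u (Y i) l).det = X ^ (∑ i, u i) * Y.det := by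
  rw [← Finset.prod_pow_eq_pow_sum, ← Matrix.det_mul_row]
  rfl

lemma MinFam.sum_vdeg_le {u : Fin r → ℕ} (hB : WDeg n B u) {Y : Matrix (Fin r) (Fin r) k[X]}
    (h : MinFam α B u Y) (p : ℕ) [Fact p.Prime] [CharP k p] :
    ∑ i, vdeg u (Y i) ≤ Y.det.natDegree + ∑ i, u i := by
  have h1 : (Matrix.of fun i l => sh u (Y i) l).det.natDegree = Y.det.natDegree + ∑ i, u i := by
    rw [det_sh, natDegree_mul (pow_ne_zero _ X_ne_zero) h.det, natDegree_X_pow, add_comm]
  rw [← h1]
  apply le_natDegree_of_ne_zero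
  rw [coeff_det_of_natDegree_le (Matrix.of fun i l => sh u (Y i) l) (fun i => vdeg u (Y i))
    fun i l => natDegree_le_vdeg u (Y i) l]
  exact h.lead_det hB p

lemma MinFam.charpoly_inf {u : Fin r → ℕ} (hB : WDeg n B u) {Y : Matrix (Fin r) (Fin r) k[X]}
    (h : MinFam α B u Y) (p : ℕ) [Fact p.Prime] [CharP k p] :
    (infMat n B u).charpoly = ∏ i, (X - C ((vdeg u (Y i) : ℕ) : k)) := by
  refine charpoly_of_eigenrows _ (Matrix.of fun i l => (sh u (Y i) l).coeff (vdeg u (Y i))) _ ?_
    (h.lead_det hB p)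
  intro i
  exact infinity_eq hB (h.sol i) (natDegree_le_vdeg u (Y i))

end

end Pool.Agent.W432.WB
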