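import Pool.Agent.W432.WB.Infinity

set_option autoImplicit false

open Polynomial

namespace Pool.Agent.W432.WB

open Pool.Agent.W432.PC (T Tc T_eq T_monic T_ne T_natDegree Tc_monic Tc_eval_ne Tc_eval_eq_zero
  T_eval_ne det_updateRow_sum' derivative_pow_p derivative_pow_mul coeff_det_of_natDegree_le
  exists_relation_single exists_row_relation charpoly_of_eigenrows exists_order LocBasis)

section

variable {k : Type*} [Field k] {n r : ℕ} {α : Fin n → k} {B : Matrix (Fin r) (Fin r) k[X]}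

lemma MinFam.row_ne {u : Fin r → ℕ} {Y : Matrix (Fin r) (Fin r) k[X]} (h : MinFam α B u Y)
    (p : ℕ) [Fact p.Prime] [CharP k p] (x₀ : k) {P : Matrix (Fin r) (Fin r) k} (hP : P.det ≠ 0)
    {e : ℕ} {z : Fin r → k[X]} (i : Fin r)
    (hz : ∀ l, ∑ m, C (P i m) * Y m l = (X - C x₀) ^ e * z l) : e < p := by
  by_contra hle
  have hPi : P i ≠ 0 := fun h0 => hP (Matrix.det_eq_zero_of_row_eq_zero i fun j => by rw [h0]; rfl)
  refine h.not_dvd (p := p) x₀ hPi (Z := fun l => (X - C x₀) ^ (e - p) * z l) ?_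
  ext1 l
  rw [Finset.sum_apply, Pi.smul_apply, smul_eq_mul, ← mul_assoc, ← pow_add]
  have : p + (e - p) = e := by omega
  rw [this, ← hz l]
  rfl

theorem MinFam.exists_locBasis {u : Fin r → ℕ} (hα : Function.Injective α) {Y : Matrix (Fin r) (Fin r) k[X]}
    (h : MinFam α B u Y) (p : ℕ) [Fact p.Prime] [CharP k p] (j : Fin n) :
    ∃ e P z, LocBasis (α j) p Y e P z := by
  classical
  let S : Set ℕ := {m | ∃ (P : Matrix (Fin r) (Fin r) k) (e : Fin r → ℕ)
    (z : Matrix (Fin r) (Fin r) k[X]), P.det ≠ 0 ∧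
    (∀ i l, ∑ m, C (P i m) * Y m l = (X - C (α j)) ^ e i * z i l) ∧ ∑ i, e i = m}
  have hSne : S.Nonempty := by
    refine ⟨_, 1, fun _ => 0, Y, by simp, fun i l => ?_, rfl⟩
    rw [pow_zero, one_mul, Finset.sum_eq_single i]
    · simp
    · intro b _ hb; simp [Matrix.one_apply_ne hb.symm]
    · intro h0; exact absurd (Finset.mem_univ i) h0
  have hSbdd : BddAbove S := by
    refine ⟨r * p, ?_⟩
    rintro m ⟨P, e, z, hP, hz, rfl⟩
    calc ∑ i, e i ≤ ∑ _i : Fin r, p :=
          Finset.sum_le_sum fun i _ => (h.row_ne p (α j) hP i (hz i)).le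
      _ = r * p := by simp
  obtain ⟨P, e, z, hP, hz, hsum⟩ := Nat.sSup_mem hSne hSbdd
  have hlt : ∀ i, e i < p := fun i => h.row_ne p (α j) hP i (hz i)
  refine ⟨e, P, z, hlt, hP, hz, fun h0 => ?_⟩
  let c : Matrix (Fin r) (Fin r) k := Matrix.of fun i l => (z i l).eval (α j)
  have hsolrow : ∀ i, Sol α B (fun l => ∑ m, C (P i m) * Y m l) := by
    intro i
    have h1 : (fun l => ∑ m, C (P i m) * Y m l) = ∑ m, C (P i m) • Y m := by
      ext1 l; rw [Finset.sum_apply]; rfl
    rw [h1]
    exact Sol.sum _ fun m _ => (h.sol m).smul derivative_C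
  have hc : ∀ i, (Matrix.mulVecLin (resMat α B j)) (c i) = ((e i : ℕ) : k) • c i := fun i => by
    rw [Matrix.mulVecLin_apply]
    exact local_sing hα j (hsolrow i) (hz i)
  obtain ⟨l, hl, hrel, ν, hν⟩ := exists_relation_single (Matrix.mulVecLin (resMat α B j)) c
    (fun i => ((e i : ℕ) : k)) hc (exists_row_relation c h0)
  obtain ⟨i₀, hi₀⟩ := Function.ne_iff.mp hl
  have hi₀' : l i₀ ≠ 0 := hi₀
  have he : ∀ i, l i ≠ 0 → e i = e i₀ := by
    intro i hi
    have h1 : ((e i : ℕ) : k) = ((e i₀ : ℕ) : k) := by rw [hν i hi, hν i₀ hi₀']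
    have h2 := (CharP.natCast_eq_natCast k p).mp h1
    exact Nat.ModEq.eq_of_lt_of_lt h2 (hlt i) (hlt i₀)
  -- the improved vector
  have hdvd : ∀ q, (X - C (α j)) ∣ ∑ i, C (l i) * z i q := by
    intro q
    rw [dvd_iff_isRoot, IsRoot.def, eval_finsetSum]
    have h1 := congrFun hrel q
    rw [Finset.sum_apply] at h1
    simpa [c] using h1
  choose w hw using hdvd
  let P' : Matrix (Fin r) (Fin r) k := P.updateRow i₀ (∑ i, l i • P i)
  let e' : Fin r → ℕ := Function.update e i₀ (e i₀ + 1)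
  let z' : Matrix (Fin r) (Fin r) k[X] := z.updateRow i₀ w
  have hP' : P'.det ≠ 0 := by
    rw [det_updateRow_sum' P l i₀]
    exact mul_ne_zero hi₀' hP
  have hz' : ∀ i q, ∑ m, C (P' i m) * Y m q = (X - C (α j)) ^ e' i * z' i q := by
    intro i q
    by_cases hi : i = i₀
    · subst hi
      simp only [P', e', z', Matrix.updateRow_self, Function.update_self]
      have h1 : ∑ m, C ((∑ i, l i • P i) m) * Y m q =
          ∑ i, C (l i) * ∑ m, C (P i m) * Y m q := by
        simp only [Finset.mul_sum, Finset.sum_apply, Pi.smul_apply, smul_eq_mul, map_sum, map_mul,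
          Finset.sum_mul]
        rw [Finset.sum_comm]
        exact Finset.sum_congr rfl fun a _ => Finset.sum_congr rfl fun b _ => by ring
      rw [h1]
      calc ∑ a, C (l a) * ∑ m, C (P a m) * Y m q
          = ∑ a, (X - C (α j)) ^ e i * (C (l a) * z a q) := by
            refine Finset.sum_congr rfl fun a _ => ?_
            by_cases ha : l a = 0
            · simp [ha]
            · rw [hz a q, he a ha]; ring
        _ = (X - C (α j)) ^ (e i + 1) * w q := by
            rw [← Finset.mul_sum, hw q, pow_succ]; ring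
    · simp only [P', e', z', Matrix.updateRow_ne hi, Function.update_of_ne hi]
      exact hz i q
  have hmem : ∑ i, e' i ∈ S := ⟨P', e', z', hP', hz', rfl⟩
  have h1 := le_csSup hSbdd hmem
  have h2 : ∑ i, e' i = ∑ i, e i + 1 := by
    rw [← Finset.add_sum_erase _ _ (Finset.mem_univ i₀),
      ← Finset.add_sum_erase Finset.univ e (Finset.mem_univ i₀)]
    have h3 : ∑ x ∈ Finset.univ.erase i₀, e' x = ∑ x ∈ Finset.univ.erase i₀, e x :=
      Finset.sum_congr rfl fun x hx => by
        simp only [e', Function.update_of_ne (Finset.mem_erase.mp hx).1]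
    rw [h3]
    simp only [e', Function.update_self]
    ring
  omega

lemma MinFam.sol_row {u : Fin r → ℕ} {Y : Matrix (Fin r) (Fin r) k[X]} (h : MinFam α B u Y) (l : Fin r → k) :
    Sol α B (fun q => ∑ m, C (l m) * Y m q) := by
  have h1 : (fun q => ∑ m, C (l m) * Y m q) = ∑ m, C (l m) • Y m := by
    ext1 l; rw [Finset.sum_apply]; rfl
  rw [h1]
  exact Sol.sum _ fun m _ => (h.sol m).smul derivative_C

lemma MinFam.charpoly_loc {u : Fin r → ℕ} (hα : Function.Injective α) {Y : Matrix (Fin r) (Fin r) k[X]}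
    (h : MinFam α B u Y) {p : ℕ} {j : Fin n} {e : Fin r → ℕ} {P : Matrix (Fin r) (Fin r) k}
    {z : Matrix (Fin r) (Fin r) k[X]} (hb : LocBasis (α j) p Y e P z) :
    (resMat α B j).charpoly = ∏ i, (X - C ((e i : ℕ) : k)) :=
  charpoly_of_eigenrows (resMat α B j) (Matrix.of fun i l => (z i l).eval (α j)) _
    (fun i => local_sing hα j (h.sol_row (P i)) (hb.eq i)) hb.detz

/-- At a regular point the determinant does not vanish. -/
lemma MinFam.det_eval_ne {u : Fin r → ℕ} {Y : Matrix (Fin r) (Fin r) k[X]} (h : MinFam α B u Y)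
    (p : ℕ) [Fact p.Prime] [CharP k p] {x₀ : k} (hx : ∀ j, x₀ ≠ α j) : Y.det.eval x₀ ≠ 0 := by
  intro h0
  have h1 : (Matrix.of fun i l => (Y i l).eval x₀).det = 0 := by
    rw [← h0, ← coe_evalRingHom, RingHom.map_det]
    rfl
  obtain ⟨l, hl, hrel⟩ := exists_row_relation _ h1
  let Z : Fin r → k[X] := fun q => ∑ m, C (l m) * Y m q
  have hZeq : ∑ i, C (l i) • Y i = Z := by
    ext1 q; rw [Finset.sum_apply]; rfl
  have hZeval : ∀ q, (Z q).eval x₀ = 0 := by
    intro q
    have h2 := congrFun hrel q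
    rw [Finset.sum_apply] at h2
    simpa [Z, eval_finsetSum] using h2
  by_cases hZ : Z = 0
  · exact h.not_dvd (p := p) x₀ hl (Z := 0) (by rw [hZeq, hZ, smul_zero])
  · obtain ⟨e, z, hez, i, hi⟩ := exists_order x₀ hZ
    have h2 := local_reg hx (h.sol_row l) hez hi
    have h3 : p ∣ e := (CharP.cast_eq_zero_iff k p e).mp h2
    have h4 : e ≠ 0 := by
      rintro rfl
      apply hi
      have := hZeval i
      rwa [hez i, pow_zero, one_mul] at this
    have h5 : p ≤ e := Nat.le_of_dvd (Nat.pos_of_ne_zero h4) h3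
    refine h.not_dvd (p := p) x₀ hl (Z := fun q => (X - C x₀) ^ (e - p) * z q) ?_
    rw [hZeq]
    ext1 q
    rw [Pi.smul_apply, smul_eq_mul, ← mul_assoc, ← pow_add, hez q]
    congr 2
    omega

/-- The degree of the determinant is the sum of all local exponents. -/
theorem MinFam.natDegree_det [IsAlgClosed k] {u : Fin r → ℕ} (hα : Function.Injective α)
    {Y : Matrix (Fin r) (Fin r) k[X]} (h : MinFam α B u Y) (p : ℕ) [Fact p.Prime] [CharP k p]
    {e : Fin n → Fin r → ℕ} {P : Fin n → Matrix (Fin r) (Fin r) k}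
    {z : Fin n → Matrix (Fin r) (Fin r) k[X]} (hb : ∀ j, LocBasis (α j) p Y (e j) (P j) (z j)) :
    Y.det.natDegree = ∑ j, ∑ i, e j i := by
  classical
  have h1 : Y.det.natDegree = Multiset.card Y.det.roots :=
    (splits_iff_card_roots.mp (IsAlgClosed.splits Y.det)).symm
  rw [h1, ← Multiset.toFinset_sum_count_eq]
  have h2 : Y.det.roots.toFinset ⊆ Finset.univ.image α := by
    intro x hx
    rw [Multiset.mem_toFinset, mem_roots h.det] at hx
    rw [Finset.mem_image]
    by_contra hcon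
    refine h.det_eval_ne p (x₀ := x) (fun j hj => hcon ⟨j, Finset.mem_univ j, hj.symm⟩) hx
  rw [Finset.sum_subset h2, Finset.sum_image fun a _ b _ hab => hα hab]
  · refine Finset.sum_congr rfl fun j _ => ?_
    rw [count_roots, (hb j).rootMultiplicity h.det]
  · intro x _ hx
    rw [Multiset.count_eq_zero]
    rwa [Multiset.mem_toFinset] at hx

end

end Pool.Agent.W432.WB
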