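import Pool.Agent.W432.WB.Fuchs
import Pool.Agent.W432.WB.Wron
import Pool.Agent.W432.PC.Points

set_option autoImplicit false

open Polynomial

namespace Pool.Agent.W432.WB

open Pool.Agent.W432.PC (T Tc T_eq T_monic T_ne T_natDegree Tc_monic Tc_eval_ne Tc_eval_eq_zero
  T_eval_ne T_map Tc_map wt lexLE exists_rep natDegree_prod_pow exists_closed_point)

universe u

lemma geo {R : Type u} [CommRing R] {𝔪 : Ideal R} [h𝔪 : 𝔪.IsMaximal] {p : ℕ}
    (hp : p.Prime) (hpm : (p : R) ∈ 𝔪) :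
    ∃ (K : Type u) (_ : Field K) (_ : IsAlgClosed K) (_ : CharP K p) (φ : R →+* K),
      ∀ g, g ∉ 𝔪 → φ g ≠ 0 := by
  let _ : Field (R ⧸ 𝔪) := Ideal.Quotient.field 𝔪
  have hrc : ringChar (R ⧸ 𝔪) = p := by
    have h1 : ((p : ℕ) : R ⧸ 𝔪) = 0 := by
      have : ((p : ℕ) : R ⧸ 𝔪) = Ideal.Quotient.mk 𝔪 (p : R) := by simp
      rw [this]
      exact Ideal.Quotient.eq_zero_iff_mem.mpr hpm
    have h2 : ringChar (R ⧸ 𝔪) ∣ p := ringChar.dvd h1
    rcases (Nat.dvd_prime hp).mp h2 with h3 | h3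
    · exact absurd h3 (CharP.ringChar_ne_one)
    · exact h3
  have hcharP : CharP (R ⧸ 𝔪) p := ringChar.of_eq hrc
  have hfact : Fact p.Prime := ⟨hp⟩
  let K := AlgebraicClosure (R ⧸ 𝔪)
  let ι : (R ⧸ 𝔪) →+* K := algebraMap (R ⧸ 𝔪) K
  have hK : CharP K p := charP_of_injective_algebraMap (algebraMap (R ⧸ 𝔪) K).injective p
  refine ⟨K, inferInstance, inferInstance, hK, ι.comp (Ideal.Quotient.mk 𝔪), ?_⟩
  intro g hg h0
  apply hg
  rw [RingHom.comp_apply, map_eq_zero_iff ι ι.injective] at h0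
  exact Ideal.Quotient.eq_zero_iff_mem.mp h0

section main

variable {R : Type u} [CommRing R] {m n : ℕ}

/-- Reduction of the local exponents. -/
lemma redExp_loc {K : Type*} [Field K] (φ : R →+* K) {α : Fin m → R}
    (hα : Function.Injective fun j => φ (α j)) {Q : Fin (n + 1) → R[X]}
    (hQ : Q (Fin.last n) = 1) {N : ℕ} {j : Fin m} {mu : Fin n → ℤ}
    (hloc : C ((N : R) ^ n) * indLoc α Q j = C ((derivative (T α)).eval (α j) ^ n) *
      ∏ l, (C (N : R) * X - C ((mu l : ℤ) : R))) :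
    RedExp N (resMat (fun j => φ (α j)) (comp (fun j => φ (α j)) fun k => (Q k).map φ) j).charpoly
      mu := by
  have h1 := congrArg (Polynomial.map φ) hloc
  rw [Polynomial.map_mul, Polynomial.map_mul, indLoc_map, Polynomial.map_prod, map_C, map_C,
    map_pow φ, map_pow φ, map_natCast] at h1
  have h2 : φ ((derivative (T α)).eval (α j)) = (Tc (fun j => φ (α j)) j).eval (φ (α j)) := by
    rw [← derivative_T_eval (fun j => φ (α j)) j, ← T_map φ α, derivative_map, eval_map_apply]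
  have h3 : ∀ l, (C (N : R) * X - C ((mu l : ℤ) : R)).map φ =
      C (N : K) * X - C ((mu l : ℤ) : K) := by
    intro l
    simp
  simp only [h2, h3] at h1
  have h4 := C_mul_cpoly_loc (α := fun j => φ (α j)) (Q := fun k => (Q k).map φ) hα
    (by simp only [hQ, Polynomial.map_one]) j
  rw [← h4] at h1
  have hne := Tc_eval_ne hα j
  unfold RedExp
  apply mul_left_cancel₀ (C_ne_zero.mpr (pow_ne_zero n hne))
  rw [← h1]
  ring

/-- Reduction of the exponents at infinity. -/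
lemma redExp_inf {K : Type*} [Field K] (φ : R →+* K) (hm : 0 < m) (hn : 0 < n) {α : Fin m → R}
    {Q : Fin (n + 1) → R[X]} (hQ : Q (Fin.last n) = 1) {N : ℕ} {mu : Fin n → ℤ}
    (hinf : C ((N : R) ^ n) * indInf m Q = ∏ l, (C (N : R) * X - C ((mu l : ℤ) : R))) :
    RedExp N (infMat m (comp (fun j => φ (α j)) fun k => (Q k).map φ) (cw m n)).charpoly
      (fun l => mu l + N * ((n - 1) * (m - 1) : ℕ)) := by
  have h1 := congrArg (Polynomial.map φ) hinf
  rw [Polynomial.map_mul, indInf_map, Polynomial.map_prod, map_C, map_pow, map_natCast] at h1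
  have h3 : ∀ l, (C (N : R) * X - C ((mu l : ℤ) : R)).map φ =
      C (N : K) * X - C ((mu l : ℤ) : K) := by
    intro l
    simp
  simp only [h3] at h1
  rw [charpoly_inf_comp hm hn (fun j => φ (α j)) (by simp only [hQ, Polynomial.map_one])]
  unfold RedExp
  have h2 := congrArg (fun q => q.comp (X - C (((n - 1) * (m - 1) : ℕ) : K))) h1
  simp only [mul_comp, C_comp, Polynomial.prod_comp, sub_comp, X_comp] at h2
  rw [h2]
  refine Finset.prod_congr rfl fun l _ => ?_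
  simp only [Int.cast_add, Int.cast_mul, Int.cast_natCast, map_add, map_mul]
  ring

theorem main [IsDomain R] [CharZero R] [Algebra.FiniteType ℤ R] (hm : 0 < m) (hn : 0 < n)
    (b : Fin (n + 1) → ℤ[X]) (hb : b (Fin.last n) ≠ 0) (α : Fin m → R)
    (hα : ∀ i j, i ≠ j → IsUnit (α i - α j)) (Q : Fin (n + 1) → R[X])
    (hQ : Q (Fin.last n) = 1) (hdeg : ∀ k, (Q k).natDegree ≤ (n - k) * (m - 1))
    (hbQ : ∀ k : Fin (n + 1), T α ^ (n - (k : ℕ)) * (b k).map (Int.castRingHom R) =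
      (b (Fin.last n)).map (Int.castRingHom R) * Q k)
    (lam : Fin m → Fin n → ℚ) (phi : Fin n → ℚ)
    (htr : ∑ j, ∑ l, lam j l + ∑ i, ((cw m n i : ℕ) : ℚ) =
      ∑ l, (phi l + (((n - 1) * (m - 1) : ℕ) : ℚ)))
    (N : ℕ) (hN : 0 < N) (mu : Fin m → Fin n → ℤ) (mu' : Fin n → ℤ)
    (hmu : ∀ j l, (N : ℚ) * lam j l = mu j l) (hmu' : ∀ l, (N : ℚ) * phi l = mu' l)
    (hloc : ∀ j, C ((N : R) ^ n) * indLoc α Q j = C ((derivative (T α)).eval (α j) ^ n) *
      ∏ l, (C (N : R) * X - C ((mu j l : ℤ) : R)))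
    (hinf : C ((N : R) ^ n) * indInf m Q = ∏ l, (C (N : R) * X - C ((mu' l : ℤ) : R)))
    (a : ℤ)
    (hsort : ∀ j l l', l ≤ l' → lexLE a (lam j l) (lam j l'))
    (hsort' : ∀ l l', l ≤ l' → lexLE a (phi l + (((n - 1) * (m - 1) : ℕ) : ℚ))
      (phi l' + (((n - 1) * (m - 1) : ℕ) : ℚ)))
    (κ : Fin m → Fin n) (s : Fin n) (q : ℤ)
    (hq : ∑ j, ∑ l, wt a (lam j l) - ∑ l, wt a (phi l + (((n - 1) * (m - 1) : ℕ) : ℚ)) +
      ∑ j, ((κ j : ℕ) : ℚ) = q * n + (s : ℕ))
    (hle : q + wt a (phi s + (((n - 1) * (m - 1) : ℕ) : ℚ)) ≤ ∑ j, wt a (lam j (κ j)))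
    (heq : q + wt a (phi s + (((n - 1) * (m - 1) : ℕ) : ℚ)) = ∑ j, wt a (lam j (κ j)) →
      ∀ Z : Fin n → (FractionRing R)[X],
        twOp N (fun j => algebraMap R (FractionRing R) (α j))
          ((comp α Q).map (Polynomial.map (algebraMap R (FractionRing R))))
          (fun j => mu j (κ j)) Z = 0 → Z = 0) :
    ∃ P₀ : ℕ, ∀ p : ℕ, P₀ < p → (N : ℤ) ∣ a * p + 1 → ∀ _hp : Fact p.Prime, ¬ FullMod b p := by
  classical
  set u₀ : ℕ := (n - 1) * (m - 1) with hu₀
  set psi : Fin n → ℚ := fun l => phi l + (u₀ : ℚ) with hpsi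
  set mu2 : Fin n → ℤ := fun l => mu' l + N * (u₀ : ℕ) with hmu2
  have hmu2' : ∀ l, (N : ℚ) * psi l = mu2 l := by
    intro l
    simp only [hpsi, hmu2]
    push_cast
    rw [mul_add, hmu' l]
  let M : ℤ := ∑ j, ∑ l, |mu j l| + ∑ l, |mu2 l|
  have hM : ∀ j l, |mu j l| ≤ M := by
    intro j l
    have h1 : |mu j l| ≤ ∑ l, |mu j l| :=
      Finset.single_le_sum (f := fun l => |mu j l|) (fun _ _ => abs_nonneg _) (Finset.mem_univ l)
    have h2 : ∑ l, |mu j l| ≤ ∑ j, ∑ l, |mu j l| :=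
      Finset.single_le_sum (f := fun j => ∑ l, |mu j l|)
        (fun _ _ => Finset.sum_nonneg fun _ _ => abs_nonneg _) (Finset.mem_univ j)
    have h3 : 0 ≤ ∑ l, |mu2 l| := Finset.sum_nonneg fun _ _ => abs_nonneg _
    simp only [M]; linarith
  have hM' : ∀ l, |mu2 l| ≤ M := by
    intro l
    have h1 : |mu2 l| ≤ ∑ l, |mu2 l| :=
      Finset.single_le_sum (f := fun l => |mu2 l|) (fun _ _ => abs_nonneg _) (Finset.mem_univ l)
    have h3 : 0 ≤ ∑ j, ∑ l, |mu j l| :=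
      Finset.sum_nonneg fun _ _ => Finset.sum_nonneg fun _ _ => abs_nonneg _
    simp only [M]; linarith
  have hM0 : 0 ≤ M := (abs_nonneg _).trans (hM' s)
  -- reduction at a geometric point
  have hpt : ∀ p : ℕ, ∀ hp : Fact p.Prime, 2 * M < p → (b (Fin.last n)).leadingCoeff.natAbs < p →
      (N : ℤ) ∣ a * p + 1 → FullMod b p →
      ∀ (𝔪 : Ideal R) [𝔪.IsMaximal], (p : R) ∈ 𝔪 →
      ∃ (K : Type u) (_ : Field K) (_ : CharP K p) (φ : R →+* K) (Z : Fin n → K[X])
        (hh : Fin m → ℕ) (D : ℤ), (∀ g, g ∉ 𝔪 → φ g ≠ 0) ∧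
        (∀ j, (hh j : ℚ) = p * wt a (lam j (κ j)) + lam j (κ j)) ∧
        ((D : ℚ) = p * q + (p * wt a (psi s) + psi s)) ∧ Z ≠ 0 ∧
        (∀ i, ((Z i).natDegree : ℤ) ≤ max 0 (D - ∑ j, (hh j : ℤ))) ∧
        ∑ j, (hh j : ℤ) + u₀ ≤ D ∧
        twOp N (fun j => φ (α j)) ((comp α Q).map (Polynomial.map φ))
          (fun j => mu j (κ j)) Z = 0 := by
    intro p hp hpM hpb hap hfm 𝔪 _ hpm
    obtain ⟨K, iF, iA, iC, φ, h1⟩ := geo hp.out hpm
    have hinj : Function.Injective fun j => φ (α j) := by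
      intro i j hij
      by_contra hne
      have h2 := (hα i j hne).map φ
      simp only at hij
      rw [map_sub, hij, sub_self] at h2
      exact not_isUnit_zero h2
    have hcast : φ.comp (Int.castRingHom R) = Int.castRingHom K := RingHom.ext_int _ _
    have hbK : (b (Fin.last n)).map (Int.castRingHom K) ≠ 0 := by
      intro h0
      have h2 := congrArg (fun q => q.coeff (b (Fin.last n)).natDegree) h0
      simp only [coeff_map, coeff_zero, eq_intCast] at h2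
      have h3 := (CharP.intCast_eq_zero_iff K p _).mp h2
      have h4 := Int.natAbs_dvd_natAbs.mpr h3
      rw [Int.natAbs_natCast] at h4
      have h5 := Nat.le_of_dvd (Int.natAbs_pos.mpr (by
        rw [coeff_natDegree]; exact leadingCoeff_ne_zero.mpr hb)) h4
      rw [coeff_natDegree] at h5
      omega
    have hfull : Full (fun j => φ (α j)) (comp (fun j => φ (α j)) fun k => (Q k).map φ) := by
      refine hfm.full (by simp only [hQ, Polynomial.map_one]) (fun k => ?_) hbK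
      have h2 := congrArg (Polynomial.map φ) (hbQ k)
      rw [Polynomial.map_mul, Polynomial.map_mul, Polynomial.map_pow, T_map, Polynomial.map_map,
        Polynomial.map_map, hcast] at h2
      exact h2
    have hdegK : ∀ k, ((Q k).map φ).natDegree ≤ (n - k) * (m - 1) := fun k =>
      natDegree_map_le.trans (hdeg k)
    obtain ⟨hh, D, W, k1, k2, k3, k4, k5, k6⟩ := weyl_point hinj (WDeg_comp hm _ hdegK) hfull hN
      hap hmu hmu2' (fun j => redExp_loc φ hinj hQ (hloc j)) (redExp_inf φ hm hn hQ hinf) htr hM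
      hM' hpM κ s q hsort hsort' hq
    choose Z hZ using k6
    have hP0 : (∏ j, (X - C (φ (α j))) ^ hh j : K[X]) ≠ 0 :=
      Finset.prod_ne_zero_iff.mpr fun j _ => pow_ne_zero _ (X_sub_C_ne_zero _)
    have hPd : (∏ j, (X - C (φ (α j))) ^ hh j : K[X]).natDegree = ∑ j, hh j :=
      natDegree_prod_pow (α := fun j => φ (α j)) hh
    have hdegZ : ∀ i, Z i ≠ 0 →
        ((Z i).natDegree : ℤ) + ∑ j, (hh j : ℤ) + (cw m n i : ℕ) ≤ D := by
      intro i hi
      have h4 := k5 i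
      rw [sh_apply, hZ i, natDegree_mul (pow_ne_zero _ X_ne_zero) (mul_ne_zero hP0 hi),
        natDegree_mul hP0 hi, hPd, natDegree_X_pow] at h4
      push_cast at h4
      linarith
    have hZ0 : Z ≠ 0 := by
      rintro rfl
      apply k3
      ext1 i
      rw [hZ i, Pi.zero_apply, mul_zero]
    have hZz : Z ⟨0, hn⟩ ≠ 0 := by
      intro h00
      apply k3
      exact Sol.zero_coord hn k4 (by rw [hZ, h00, mul_zero])
    refine ⟨K, iF, iC, φ, Z, hh, D, h1, k1, k2, hZ0, ?_, ?_, ?_⟩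
    · intro i
      by_cases hi : Z i = 0
      · rw [hi]; simp
      · have := hdegZ i hi
        have h5 : (0 : ℤ) ≤ (cw m n i : ℕ) := Int.natCast_nonneg _
        exact le_max_of_le_right (by linarith)
    · have := hdegZ _ hZz
      have h5 : (0 : ℤ) ≤ (Z ⟨0, hn⟩).natDegree := Int.natCast_nonneg _
      have h6 : cw m n ⟨0, hn⟩ = u₀ := by simp [cw, hu₀]
      rw [h6] at this
      linarith
    · rw [comp_map]
      refine twisted_of_sol k4 hZ fun j => ?_
      obtain ⟨e, -, he, t, ht⟩ := exists_rep hN (hmu j (κ j))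
        (lt_of_le_of_lt (hM j (κ j)) (by omega)) hap (p := p)
      have h7 : (hh j : ℚ) = (e : ℚ) := by rw [k1 j, he]
      have h8 : hh j = e := by exact_mod_cast h7
      rw [h8]
      have h9 := congrArg (fun x : ℤ => (x : K)) ht
      push_cast at h9
      rw [CharP.cast_eq_zero K p, zero_mul, add_zero] at h9
      exact h9
  rcases lt_or_eq_of_le hle with hlt | heq'
  · -- strict violation
    set ε : ℚ := ∑ j, wt a (lam j (κ j)) - (q + wt a (psi s)) with hε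
    have hε0 : 0 < ε := by rw [hε]; linarith
    obtain ⟨P₁, hP₁⟩ := exists_closed_point R (one_ne_zero (α := R))
    refine ⟨max (max (2 * M).toNat (b (Fin.last n)).leadingCoeff.natAbs)
      (max P₁ ⌈(phi s - ∑ j, lam j (κ j)) / ε⌉₊), ?_⟩
    intro p hpP hap hp hfm
    simp only [max_lt_iff] at hpP
    obtain ⟨⟨hp1, hp2⟩, hp3, hp4⟩ := hpP
    obtain ⟨𝔪, h𝔪, hpm, -⟩ := hP₁ p hp.out hp3
    obtain ⟨K, _, _, φ, Z, hh, D, -, k1, k2, -, -, k5, -⟩ :=
      hpt p hp (by omega) hp2 hap hfm 𝔪 hpm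
    have h1 : (∑ j, (hh j : ℚ)) + u₀ ≤ D := by exact_mod_cast k5
    rw [k2] at h1
    simp only [k1, Finset.sum_add_distrib, ← Finset.mul_sum] at h1
    have h2 : (p : ℚ) * ε ≤ phi s - ∑ j, lam j (κ j) := by
      rw [hε]
      simp only [hpsi] at h1 ⊢
      linarith
    have h3 : (p : ℚ) ≤ (phi s - ∑ j, lam j (κ j)) / ε := by
      rw [le_div_iff₀ hε0]; exact h2
    have h4 : (p : ℚ) ≤ (⌈(phi s - ∑ j, lam j (κ j)) / ε⌉₊ : ℚ) := h3.trans (Nat.le_ceil _)
    have h5 : p ≤ ⌈(phi s - ∑ j, lam j (κ j)) / ε⌉₊ := by exact_mod_cast h4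
    omega
  · -- equality
    let δ : ℕ := ⌈psi s - ∑ j, lam j (κ j)⌉₊
    obtain ⟨g, hg, hgood⟩ := exists_good.{u} N α (comp α Q) (fun j => mu j (κ j)) (heq heq') δ
    obtain ⟨P₁, hP₁⟩ := exists_closed_point R hg
    refine ⟨max (max (2 * M).toNat (b (Fin.last n)).leadingCoeff.natAbs) P₁, ?_⟩
    intro p hpP hap hp hfm
    simp only [max_lt_iff] at hpP
    obtain ⟨⟨hp1, hp2⟩, hp3⟩ := hpP
    obtain ⟨𝔪, h𝔪, hpm, hgm⟩ := hP₁ p hp.out hp3
    obtain ⟨K, _, _, φ, Z, hh, D, k0, k1, k2, k3, k4, k5, k6⟩ :=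
      hpt p hp (by omega) hp2 hap hfm 𝔪 hpm
    apply k3
    refine hgood K φ (k0 g hgm) Z (fun i => ?_) k6
    have h1 : ((D - ∑ j, (hh j : ℤ) : ℤ) : ℚ) = psi s - ∑ j, lam j (κ j) := by
      push_cast
      rw [k2]
      simp only [k1, Finset.sum_add_distrib, ← Finset.mul_sum]
      simp only [hpsi] at heq' ⊢
      linear_combination (p : ℚ) * heq'
    have h2 : D - ∑ j, (hh j : ℤ) ≤ (δ : ℤ) := by
      have h3 : ((D - ∑ j, (hh j : ℤ) : ℤ) : ℚ) ≤ ((δ : ℤ) : ℚ) := by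
        rw [h1]
        simp only [δ, Int.cast_natCast]
        exact Nat.le_ceil _
      exact_mod_cast h3
    have h3 := k4 i
    have h4 : ((Z i).natDegree : ℤ) ≤ (δ : ℤ) := h3.trans (max_le (Int.natCast_nonneg _) h2)
    exact_mod_cast h4

end main

end Pool.Agent.W432.WB
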