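import Pool.Agent.W432.WB.Basic

set_option autoImplicit false

open Polynomial

namespace Pool.Agent.W432.WB

open Pool.Agent.W432.PC (T Tc T_eq T_monic T_ne T_natDegree Tc_monic Tc_eval_ne Tc_eval_eq_zero
  T_eval_ne det_updateRow_sum' derivative_pow_p derivative_pow_mul)

section

variable {k : Type*} [Field k] {n r : ℕ} {α : Fin n → k} {B : Matrix (Fin r) (Fin r) k[X]}

/-- The shifted vector `X ^ u i * y i`. -/
noncomputable def sh (u : Fin r → ℕ) (y : Fin r → k[X]) : Fin r → k[X] := fun i => X ^ u i * y i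

lemma sh_apply (u : Fin r → ℕ) (y : Fin r → k[X]) (i : Fin r) : sh u y i = X ^ u i * y i := rfl

lemma sh_sum {ι : Type*} (s : Finset ι) (u : Fin r → ℕ) (y : ι → Fin r → k[X]) (i : Fin r) :
    sh u (∑ j ∈ s, y j) i = ∑ j ∈ s, sh u (y j) i := by
  rw [sh_apply, Finset.sum_apply, Finset.mul_sum]
  rfl

lemma sh_smul (u : Fin r → ℕ) (a : k[X]) (y : Fin r → k[X]) (i : Fin r) :
    sh u (a • y) i = a * sh u y i := by
  rw [sh_apply, sh_apply, Pi.smul_apply, smul_eq_mul]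
  ring

lemma sh_ne {u : Fin r → ℕ} {y : Fin r → k[X]} {i : Fin r} (h : y i ≠ 0) : sh u y i ≠ 0 :=
  mul_ne_zero (pow_ne_zero _ X_ne_zero) h

/-- The weighted degree of a polynomial vector. -/
noncomputable def vdeg (u : Fin r → ℕ) (y : Fin r → k[X]) : ℕ :=
  Finset.univ.sup fun i => (sh u y i).natDegree

lemma natDegree_le_vdeg (u : Fin r → ℕ) (y : Fin r → k[X]) (i : Fin r) :
    (sh u y i).natDegree ≤ vdeg u y :=
  Finset.le_sup (f := fun i => (sh u y i).natDegree) (Finset.mem_univ i)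

/-- A full family of polynomial solutions of minimal total degree. -/
structure MinFam (α : Fin n → k) (B : Matrix (Fin r) (Fin r) k[X]) (u : Fin r → ℕ)
    (Y : Matrix (Fin r) (Fin r) k[X]) : Prop where
  sol : ∀ i, Sol α B (Y i)
  det : Y.det ≠ 0
  min : ∀ Y' : Matrix (Fin r) (Fin r) k[X], (∀ i, Sol α B (Y' i)) → Y'.det ≠ 0 →
    ∑ i, vdeg u (Y i) ≤ ∑ i, vdeg u (Y' i)

lemma exists_minFam (u : Fin r → ℕ) {Y : Matrix (Fin r) (Fin r) k[X]} (h1 : ∀ i, Sol α B (Y i))
    (h2 : Y.det ≠ 0) : ∃ Y', MinFam α B u Y' := by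
  let S : Set ℕ := {m | ∃ Y' : Matrix (Fin r) (Fin r) k[X], (∀ i, Sol α B (Y' i)) ∧ Y'.det ≠ 0 ∧
    ∑ i, vdeg u (Y' i) = m}
  have hS : S.Nonempty := ⟨_, Y, h1, h2, rfl⟩
  obtain ⟨Y', h3, h4, h5⟩ := Nat.sInf_mem hS
  refine ⟨Y', h3, h4, fun Z hZ hZd => ?_⟩
  rw [h5]
  exact Nat.sInf_le ⟨Z, hZ, hZd, rfl⟩

lemma MinFam.exchange {u : Fin r → ℕ} {Y : Matrix (Fin r) (Fin r) k[X]} (h : MinFam α B u Y)
    (i₀ : Fin r) {Z : Fin r → k[X]} (hZ : Sol α B Z) (hdet : (Y.updateRow i₀ Z).det ≠ 0) :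
    vdeg u (Y i₀) ≤ vdeg u Z := by
  have h1 := h.min (Y.updateRow i₀ Z) (fun i => ?_) hdet
  · rw [← Finset.add_sum_erase _ _ (Finset.mem_univ i₀),
      ← Finset.add_sum_erase Finset.univ (fun i => vdeg u (Y.updateRow i₀ Z i))
        (Finset.mem_univ i₀)] at h1
    have h2 : ∑ x ∈ Finset.univ.erase i₀, vdeg u (Y.updateRow i₀ Z x) =
        ∑ x ∈ Finset.univ.erase i₀, vdeg u (Y x) := by
      refine Finset.sum_congr rfl fun x hx => ?_
      rw [Matrix.updateRow_ne (Finset.mem_erase.mp hx).1]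
    rw [h2, Matrix.updateRow_self] at h1
    omega
  · by_cases hi : i = i₀
    · subst hi; rw [Matrix.updateRow_self]; exact hZ
    · rw [Matrix.updateRow_ne hi]; exact h.sol i

variable {p : ℕ} [Fact p.Prime] [CharP k p]

/-- No nontrivial combination of the rows of a minimal family is divisible by `(X - x₀) ^ p`. -/
lemma MinFam.not_dvd {u : Fin r → ℕ} {Y : Matrix (Fin r) (Fin r) k[X]} (h : MinFam α B u Y)
    (x₀ : k) {l : Fin r → k} (hl : l ≠ 0) {Z : Fin r → k[X]}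
    (hZ : ∑ i, C (l i) • Y i = ((X - C x₀) ^ p) • Z) : False := by
  classical
  have hp : 0 < p := (Fact.out : p.Prime).pos
  have hne : (Finset.univ.filter fun i => l i ≠ 0).Nonempty := by
    obtain ⟨i, hi⟩ := Function.ne_iff.mp hl
    exact ⟨i, Finset.mem_filter.mpr ⟨Finset.mem_univ i, hi⟩⟩
  obtain ⟨i₀, hi₀, hmax⟩ := Finset.exists_max_image _ (fun i => vdeg u (Y i)) hne
  have hi₀' : l i₀ ≠ 0 := (Finset.mem_filter.mp hi₀).2
  have hτ : ((X - C x₀ : k[X]) ^ p) ≠ 0 := pow_ne_zero _ (X_sub_C_ne_zero x₀)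
  have hdet1 : (Y.updateRow i₀ (∑ i, C (l i) • Y i)).det = C (l i₀) * Y.det :=
    det_updateRow_sum' Y (fun i => C (l i)) i₀
  have hdet2 : (Y.updateRow i₀ Z).det ≠ 0 := by
    intro h0
    rw [hZ, Matrix.det_updateRow_smul, h0, mul_zero] at hdet1
    exact (mul_ne_zero (C_ne_zero.mpr hi₀') h.det) hdet1.symm
  have hsolZ : Sol α B Z := by
    refine Sol.of_smul (derivative_pow_p (p := p) (X - C x₀)) hτ ?_
    rw [← hZ]
    exact Sol.sum _ fun i _ => (h.sol i).smul (derivative_C)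
  have h1 := h.exchange i₀ hsolZ hdet2
  -- degree estimate
  have hZne : Z ≠ 0 := by
    rintro rfl
    exact hdet2 (Matrix.det_eq_zero_of_row_eq_zero i₀ fun j => by simp [Matrix.updateRow_self])
  obtain ⟨j, hj⟩ := Function.ne_iff.mp hZne
  have h2 : ∀ j, (((X - C x₀ : k[X]) ^ p) * sh u Z j).natDegree ≤ vdeg u (Y i₀) := by
    intro j
    have h3 := congrArg (fun v => sh u v j) hZ
    simp only [sh_smul, sh_sum] at h3
    rw [← h3]
    refine natDegree_sum_le_of_forall_le _ _ fun i _ => ?_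
    by_cases hli : l i = 0
    · rw [hli]; simp
    · exact (natDegree_C_mul_le _ _).trans ((natDegree_le_vdeg _ _ _).trans
        (hmax i (Finset.mem_filter.mpr ⟨Finset.mem_univ i, hli⟩)))
  have h3 : vdeg u Z + p ≤ vdeg u (Y i₀) := by
    obtain ⟨j', -, hj'⟩ := Finset.exists_mem_eq_sup (Finset.univ : Finset (Fin r))
      ⟨j, Finset.mem_univ j⟩ (fun i => (sh u Z i).natDegree)
    by_cases h0 : vdeg u Z = 0
    · rw [h0, zero_add]
      have := h2 j
      rw [natDegree_mul hτ (sh_ne hj), natDegree_pow, natDegree_X_sub_C] at this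
      omega
    · have hj'' : sh u Z j' ≠ 0 := by
        intro h00
        apply h0
        unfold vdeg
        rw [hj', h00]; simp
      have := h2 j'
      rw [natDegree_mul hτ hj'', natDegree_pow, natDegree_X_sub_C] at this
      have h4 : vdeg u Z = (sh u Z j').natDegree := hj'
      omega
  omega

end

end Pool.Agent.W432.WB
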