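import Pool.Agent.W432.WB.Comp

set_option autoImplicit false

open Polynomial

namespace Pool.Agent.W432.WB

open Pool.Agent.W432.PC (T Tc T_eq T_monic T_ne T_natDegree Tc_monic Tc_eval_ne Tc_eval_eq_zero
  T_eval_ne T_map Tc_map)

section defs

variable {S : Type*} [CommRing S] {m n : ℕ}

/-- The polynomial `∑ k, Q k (α j) * T' (α j) ^ k * X (X - 1) ⋯ (X - k + 1)`; it is `T' (α j) ^ n`
times the indicial polynomial at `α j` of the operator `∑ k, Q k / T ^ (n - k) * ∂ ^ k`. -/
noncomputable def indLoc (α : Fin m → S) (Q : Fin (n + 1) → S[X]) (j : Fin m) : S[X] :=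
  ∑ k : Fin (n + 1), C ((Q k).eval (α j) * (derivative (T α)).eval (α j) ^ (k : ℕ)) *
    descPochhammer S k

/-- The indicial polynomial at infinity (its roots are the degrees of the solutions) of the
operator `∑ k, Q k / T ^ (n - k) * ∂ ^ k`. -/
noncomputable def indInf (m : ℕ) (Q : Fin (n + 1) → S[X]) : S[X] :=
  ∑ k : Fin (n + 1), C ((Q k).coeff ((n - k) * (m - 1))) * descPochhammer S k

/-- The companion system of `∑ k, Q k / T ^ (n - k) * ∂ ^ k` for the vector `T ^ k * y ^ (k)`. -/
noncomputable def comp (α : Fin m → S) (Q : Fin (n + 1) → S[X]) : Matrix (Fin n) (Fin n) S[X] :=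
  Matrix.of fun i l => (if i = l then ((i : ℕ) : S[X]) * derivative (T α) else 0) +
    (if (l : ℕ) = i + 1 then 1 else 0) - (if (i : ℕ) + 1 = n then Q l.castSucc else 0)

/-- The weights of the companion system. -/
def cw (m n : ℕ) : Fin n → ℕ := fun i => (n - 1 - i) * (m - 1)

variable {S' : Type*} [CommRing S'] (φ : S →+* S')

lemma indLoc_map (α : Fin m → S) (Q : Fin (n + 1) → S[X]) (j : Fin m) :
    (indLoc α Q j).map φ = indLoc (fun j => φ (α j)) (fun k => (Q k).map φ) j := by
  unfold indLoc
  rw [Polynomial.map_sum]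
  refine Finset.sum_congr rfl fun k _ => ?_
  have h1 : (derivative (T fun j => φ (α j))).eval (φ (α j)) = φ ((derivative (T α)).eval (α j)) := by
    rw [← T_map φ α, derivative_map, eval_map_apply]
  rw [Polynomial.map_mul, map_C, map_mul, map_pow, descPochhammer_map, h1, eval_map_apply]

lemma indInf_map (Q : Fin (n + 1) → S[X]) :
    (indInf m Q).map φ = indInf m (fun k => (Q k).map φ) := by
  unfold indInf
  rw [Polynomial.map_sum]
  refine Finset.sum_congr rfl fun k _ => ?_
  rw [Polynomial.map_mul, map_C, descPochhammer_map, coeff_map]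

lemma comp_map (α : Fin m → S) (Q : Fin (n + 1) → S[X]) :
    (comp α Q).map (Polynomial.map φ) = comp (fun j => φ (α j)) (fun k => (Q k).map φ) := by
  ext1 i l
  simp only [comp, Matrix.map_apply, Matrix.of_apply, Polynomial.map_sub, Polynomial.map_add]
  rw [← T_map φ α, derivative_map]
  congr 1
  · congr 1
    · split_ifs <;> simp
    · split_ifs <;> simp
  · split_ifs <;> simp

end defs

section field

variable {k : Type*} [Field k] {m n : ℕ} {α : Fin m → k} {Q : Fin (n + 1) → k[X]}

lemma derivative_T_eval (α : Fin m → k) (j : Fin m) :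
    (derivative (T α)).eval (α j) = (Tc α j).eval (α j) := by
  rw [T_eq (α := α) j, derivative_mul, derivative_sub, derivative_X, derivative_C, sub_zero,
    one_mul, eval_add, eval_mul, eval_sub, eval_X, eval_C, sub_self, zero_mul, add_zero]

lemma resMat_comp (hα : Function.Injective α) (Q : Fin (n + 1) → k[X]) (j : Fin m) :
    resMat α (comp α Q) j = cm 0 ((Tc α j).eval (α j))⁻¹
      (fun l => ((Tc α j).eval (α j))⁻¹ * (Q l.castSucc).eval (α j)) := by
  have hne := Tc_eval_ne hα j
  ext i l
  simp only [resMat, Matrix.smul_apply, Matrix.map_apply, smul_eq_mul, comp, cm, Matrix.of_apply,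
    eval_sub, eval_add, mul_sub, mul_add, zero_add]
  congr 1
  · congr 1
    · split_ifs
      · rw [eval_mul, eval_natCast, derivative_T_eval]
        field_simp
      · simp
    · split_ifs <;> simp
  · split_ifs <;> simp

lemma C_mul_cpoly_loc (hα : Function.Injective α) (hQ : Q (Fin.last n) = 1) (j : Fin m) :
    C ((Tc α j).eval (α j) ^ n) * (resMat α (comp α Q) j).charpoly = indLoc α Q j := by
  have hne := Tc_eval_ne hα j
  rw [resMat_comp hα, cm_charpoly _ _ (inv_ne_zero hne)]
  simp only [map_zero, sub_zero, comp_X, cpoly, indLoc, Fin.sum_univ_castSucc, derivative_T_eval,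
    hQ, eval_one, one_mul, Fin.val_last, Fin.val_castSucc, mul_add, Finset.mul_sum]
  rw [add_comm]
  congr 1
  refine Finset.sum_congr rfl fun l _ => ?_
  rw [← mul_assoc, ← C_mul]
  congr 2
  have hl : n = (n - 1 - (l : ℕ)) + 1 + l := by have := l.isLt; omega
  set t := (Tc α j).eval (α j) with ht
  have h1 : t ^ n = t ^ (n - 1 - (l : ℕ)) * t * t ^ (l : ℕ) := by
    conv_lhs => rw [hl]
    rw [pow_add, pow_add, pow_one]
  have h2 : t ^ (n - 1 - (l : ℕ)) ≠ 0 := pow_ne_zero _ hne
  rw [h1, inv_pow]
  field_simp

lemma infMat_comp (hm : 0 < m) (hn : 0 < n) (α : Fin m → k) (Q : Fin (n + 1) → k[X]) :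
    infMat m (comp α Q) (cw m n) = cm (((n - 1) * (m - 1) : ℕ) : k) 1
      (fun l => (Q l.castSucc).coeff ((n - l) * (m - 1))) := by
  ext i l
  have hi := i.isLt
  have hl := l.isLt
  have hT : (derivative (T α)).coeff (m - 1) = (m : k) := by
    rw [coeff_derivative, Nat.sub_add_cancel hm]
    have h6 := (T_monic (α := α)).coeff_natDegree
    rw [T_natDegree] at h6
    rw [h6, one_mul]
    have : ((m - 1 : ℕ) : k) + 1 = (m : k) := by
      rw [← Nat.cast_add_one, Nat.sub_add_cancel hm]
    exact this
  simp only [infMat, Matrix.of_apply, comp, cm, mul_sub, mul_add, coeff_sub, coeff_add]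
  have h1 : (X ^ (1 + cw m n i) * (if i = l then ((i : ℕ) : k[X]) * derivative (T α) else 0)).coeff
      (m + cw m n l) = if i = l then ((i : ℕ) : k) * m else 0 := by
    split_ifs with h
    · subst h
      rw [show m + cw m n i = (m - 1) + (1 + cw m n i) by omega, coeff_X_pow_mul,
        ← C_eq_natCast, coeff_C_mul, hT]
    · simp
  have h2 : (X ^ (1 + cw m n i) * (if (l : ℕ) = i + 1 then 1 else 0) : k[X]).coeff
      (m + cw m n l) = if (l : ℕ) = i + 1 then 1 else 0 := by
    split_ifs with h
    · have h3 : cw m n i = cw m n l + (m - 1) := by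
        unfold cw
        have : n - 1 - (i : ℕ) = (n - 1 - (l : ℕ)) + 1 := by omega
        rw [this, add_mul, one_mul]
      rw [mul_one, coeff_X_pow, if_pos (by omega)]
    · simp
  have h3 : (X ^ (1 + cw m n i) * (if (i : ℕ) + 1 = n then Q l.castSucc else 0)).coeff
      (m + cw m n l) = if (i : ℕ) + 1 = n then (Q l.castSucc).coeff ((n - l) * (m - 1)) else 0 := by
    split_ifs with h
    · have h4 : cw m n i = 0 := by
        unfold cw
        have : n - 1 - (i : ℕ) = 0 := by omega
        rw [this, zero_mul]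
      have h5 : m + cw m n l = (n - l) * (m - 1) + (1 + 0) := by
        unfold cw
        have : n - (l : ℕ) = (n - 1 - (l : ℕ)) + 1 := by omega
        rw [this, add_mul, one_mul]
        omega
      rw [h4, h5, coeff_X_pow_mul]
    · simp
  rw [h1, h2, h3]
  have h4 : (if i = l then ((i : ℕ) : k) * m else 0) + (if i = l then ((cw m n i : ℕ) : k) else 0) =
      if i = l then (((n - 1) * (m - 1) : ℕ) : k) + ((i : ℕ) : k) else 0 := by
    split_ifs with h
    · have h5 : (i : ℕ) * m + cw m n i = (n - 1) * (m - 1) + i := by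
        unfold cw
        obtain ⟨m', rfl⟩ : ∃ m', m = m' + 1 := ⟨m - 1, by omega⟩
        obtain ⟨c, hc⟩ : ∃ c, n - 1 = c + i := ⟨n - 1 - i, by omega⟩
        have h6 : n - 1 - (i : ℕ) = c := by omega
        rw [h6, hc, Nat.add_sub_cancel]
        ring
      exact_mod_cast congrArg (fun x : ℕ => (x : k)) h5
    · simp
  linear_combination h4

lemma charpoly_inf_comp (hm : 0 < m) (hn : 0 < n) (α : Fin m → k) (hQ : Q (Fin.last n) = 1) :
    (infMat m (comp α Q) (cw m n)).charpoly =
      (indInf m Q).comp (X - C (((n - 1) * (m - 1) : ℕ) : k)) := by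
  rw [infMat_comp hm hn, cm_charpoly _ _ one_ne_zero]
  congr 1
  simp only [cpoly, indInf, Fin.sum_univ_castSucc, hQ, one_pow, mul_one, Fin.val_last,
    Nat.sub_self, zero_mul, coeff_one_zero, map_one, one_mul, Fin.val_castSucc]
  rw [add_comm]

lemma WDeg_comp (hm : 0 < m) (α : Fin m → k) (hdeg : ∀ i, (Q i).natDegree ≤ (n - i) * (m - 1)) :
    WDeg m (comp α Q) (cw m n) := by
  intro i l
  have hi := i.isLt
  have hl := l.isLt
  have hT : (derivative (T α)).natDegree ≤ m - 1 := by
    have := natDegree_derivative_le (T α)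
    rwa [T_natDegree] at this
  simp only [comp, Matrix.of_apply, mul_sub, mul_add]
  refine (natDegree_sub_le _ _).trans (max_le ((natDegree_add_le _ _).trans (max_le ?_ ?_)) ?_)
  · split_ifs with h
    · subst h
      refine (natDegree_mul_le).trans ?_
      rw [natDegree_X_pow]
      have h1 : (((i : ℕ) : k[X]) * derivative (T α)).natDegree ≤ m - 1 := by
        rw [← C_eq_natCast]
        exact (natDegree_C_mul_le _ _).trans hT
      omega
    · simp
  · split_ifs with h
    · have h3 : cw m n i = cw m n l + (m - 1) := by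
        unfold cw
        have : n - 1 - (i : ℕ) = (n - 1 - (l : ℕ)) + 1 := by omega
        rw [this, add_mul, one_mul]
      rw [mul_one, natDegree_X_pow]
      omega
    · simp
  · split_ifs with h
    · have h4 : cw m n i = 0 := by
        unfold cw
        have : n - 1 - (i : ℕ) = 0 := by omega
        rw [this, zero_mul]
      have h5 : m + cw m n l = (n - l) * (m - 1) + (1 + 0) := by
        unfold cw
        have : n - (l : ℕ) = (n - 1 - (l : ℕ)) + 1 := by omega
        rw [this, add_mul, one_mul]
        omega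
      rw [h4, h5]
      refine (natDegree_mul_le).trans ?_
      rw [natDegree_X_pow]
      have := hdeg l.castSucc
      simp only [Fin.val_castSucc] at this
      omega
    · simp

/-- In a nonzero solution of the companion system the first coordinate does not vanish. -/
lemma Sol.zero_coord (hn : 0 < n) {W : Fin n → k[X]} (hW : Sol α (comp α Q) W)
    (h0 : W ⟨0, hn⟩ = 0) : W = 0 := by
  have hrow : ∀ i : Fin n, ∀ h : (i : ℕ) + 1 < n, W ⟨(i : ℕ) + 1, h⟩ =
      T α * derivative (W i) - ((i : ℕ) : k[X]) * derivative (T α) * W i := by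
    intro i h
    have h1 := hW i
    have h2 : (comp α Q).mulVec W i = ((i : ℕ) : k[X]) * derivative (T α) * W i +
        W ⟨(i : ℕ) + 1, h⟩ := by
      have hlast : ¬ ((i : ℕ) + 1 = n) := by omega
      simp only [Matrix.mulVec, dotProduct, comp, Matrix.of_apply, if_neg hlast, sub_zero, add_mul,
        Finset.sum_add_distrib, ite_mul, zero_mul, one_mul, Finset.sum_ite_eq, Finset.mem_univ,
        if_true]
      congr 1
      rw [Finset.sum_eq_single ⟨(i : ℕ) + 1, h⟩]
      · simp
      · intro l _ hl
        rw [if_neg]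
        intro h'
        exact hl (Fin.ext h')
      · intro h'; exact absurd (Finset.mem_univ _) h'
    rw [h2] at h1
    rw [h1]; ring
  have key : ∀ t : ℕ, ∀ h : t < n, W ⟨t, h⟩ = 0 := by
    intro t
    induction t with
    | zero => intro h; exact h0
    | succ t ih =>
      intro h
      have h1 := hrow ⟨t, by omega⟩ h
      rw [h1, ih (by omega)]
      simp
  ext1 i
  exact key i i.isLt

end field

end Pool.Agent.W432.WB
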