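import Pool.Agent.W432.WB.Twist
import Pool.Agent.W432.PC.Final

set_option autoImplicit false

open Polynomial

namespace Pool.Agent.W432.WB

open Pool.Agent.W432.PC (T Tc T_eq T_monic T_ne T_natDegree Tc_monic Tc_eval_ne Tc_eval_eq_zero
  T_eval_ne T_map Tc_map wt lexLE exists_rep T_mul_derivative_prod)

section

variable {n r : ℕ}

/-- The reductions of the rational numbers `m l / N` are the roots of the polynomial `P`. -/
def RedExp {K : Type*} [Field K] (N : ℕ) (P : K[X]) (m : Fin r → ℤ) : Prop :=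
  C ((N : K) ^ r) * P = ∏ l, (C (N : K) * X - C ((m l : ℤ) : K))

lemma RedExp.eq_prod {K : Type*} [Field K] {N : ℕ} {P : K[X]} {m : Fin r → ℤ} (h : RedExp N P m)
    (hNK : (N : K) ≠ 0) {e : Fin r → ℕ} (he : ∀ l, (N : K) * (e l : K) = (m l : K)) :
    P = ∏ l, (X - C ((e l : ℕ) : K)) := by
  have h3 : ∏ l, (C (N : K) * X - C ((m l : ℤ) : K)) =
      C ((N : K) ^ r) * ∏ l, (X - C ((e l : ℕ) : K)) := by
    have h4 : (C ((N : K) ^ r) : K[X]) = ∏ _l : Fin r, C (N : K) := by
      rw [Finset.prod_const, Finset.card_univ, Fintype.card_fin, C_pow]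
    rw [h4, ← Finset.prod_mul_distrib]
    refine Finset.prod_congr rfl fun l _ => ?_
    rw [mul_sub, ← C_mul, he l]
  unfold RedExp at h
  rw [h3] at h
  exact mul_left_cancel₀ (C_ne_zero.mpr (pow_ne_zero _ hNK)) h

/-- The key statement at a geometric point of characteristic `p`. -/
theorem weyl_point {K : Type*} [Field K] [IsAlgClosed K] {p : ℕ}
    [Fact p.Prime] [CharP K p] {α : Fin n → K} (hα : Function.Injective α)
    {B : Matrix (Fin r) (Fin r) K[X]} {u : Fin r → ℕ} (hB : WDeg n B u) (hfull : Full α B)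
    {N : ℕ} (hN : 0 < N) {a : ℤ} (hap : (N : ℤ) ∣ a * p + 1)
    {lam : Fin n → Fin r → ℚ} {phi : Fin r → ℚ}
    {m : Fin n → Fin r → ℤ} (hm : ∀ j l, (N : ℚ) * lam j l = m j l)
    {m' : Fin r → ℤ} (hm' : ∀ l, (N : ℚ) * phi l = m' l)
    (hlam : ∀ j, RedExp N (resMat α B j).charpoly (m j))
    (hphi : RedExp N (infMat n B u).charpoly m')
    (htr : ∑ j, ∑ l, lam j l + ∑ i, (u i : ℚ) = ∑ l, phi l)
    {M : ℤ} (hM : ∀ j l, |m j l| ≤ M) (hM' : ∀ l, |m' l| ≤ M) (hp : 2 * M < p)
    (κ : Fin n → Fin r) (s : Fin r) (q : ℤ)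
    (hsort : ∀ j l l', l ≤ l' → lexLE a (lam j l) (lam j l'))
    (hsort' : ∀ l l', l ≤ l' → lexLE a (phi l) (phi l'))
    (hq : ∑ j, ∑ l, wt a (lam j l) - ∑ l, wt a (phi l) + ∑ j, ((κ j : ℕ) : ℚ) =
      q * r + (s : ℕ)) :
    ∃ (hh : Fin n → ℕ) (D : ℤ) (W : Fin r → K[X]),
      (∀ j, (hh j : ℚ) = p * wt a (lam j (κ j)) + lam j (κ j)) ∧
      ((D : ℚ) = p * q + (p * wt a (phi s) + phi s)) ∧ W ≠ 0 ∧
      Sol α B W ∧ (∀ i, ((sh u W i).natDegree : ℤ) ≤ D) ∧
      ∀ i, ∏ j, (X - C (α j)) ^ hh j ∣ W i := by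
  classical
  have hp0 : (0 : ℤ) < p := by exact_mod_cast (Fact.out : p.Prime).pos
  have hpQ : (0 : ℚ) < p := by exact_mod_cast (Fact.out : p.Prime).pos
  have hM0 : 0 ≤ M := (abs_nonneg _).trans (hM' s)
  have hNpos : (0 : ℤ) < N := by exact_mod_cast hN
  have hNQ : (0 : ℚ) < N := by exact_mod_cast hN
  choose e helt heq t ht using fun j l => exists_rep hN (hm j l)
    (lt_of_le_of_lt (hM j l) (by omega)) hap (p := p)
  choose f hflt hfeq t' ht' using fun l => exists_rep hN (hm' l)
    (lt_of_le_of_lt (hM' l) (by omega)) hap (p := p)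
  have hNK : (N : K) ≠ 0 := by
    intro h0
    have h1 : p ∣ N := (CharP.cast_eq_zero_iff K p N).mp h0
    have h2 : (p : ℤ) ∣ a * p + 1 := (Int.natCast_dvd_natCast.mpr h1).trans hap
    have h3 : (p : ℤ) ∣ 1 := by
      have h4 : (1 : ℤ) = (a * p + 1) - a * p := by ring
      rw [h4]
      exact dvd_sub h2 (Dvd.intro_left _ rfl)
    have h4 := Int.natAbs_dvd_natAbs.mpr h3
    simp only [Int.natAbs_natCast, Int.natAbs_one, Nat.dvd_one] at h4
    exact (Fact.out : p.Prime).one_lt.ne' h4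
  have hcastK : ∀ (e t : ℤ) (m : ℤ), (N : ℤ) * e = m + p * t → (N : K) * (e : K) = (m : K) := by
    intro e t m h
    have h1 := congrArg (fun x : ℤ => (x : K)) h
    push_cast at h1
    rw [CharP.cast_eq_zero K p, zero_mul, add_zero] at h1
    exact h1
  have hAc : ∀ j, (resMat α B j).charpoly = ∏ l, (X - C ((e j l : ℕ) : K)) := fun j =>
    (hlam j).eq_prod hNK fun l => by
      have := hcastK _ _ _ (ht j l)
      exact_mod_cast this
  have hAsc : (infMat n B u).charpoly = ∏ l, (X - C ((f l : ℕ) : K)) :=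
    hphi.eq_prod hNK fun l => by
      have := hcastK _ _ _ (ht' l)
      exact_mod_cast this
  -- weights in terms of t
  have hwt : ∀ j l, (t j l : ℚ) = N * wt a (lam j l) := by
    intro j l
    have h1 : ((N : ℤ) * e j l : ℤ) = m j l + p * t j l := ht j l
    have h2 : (N : ℚ) * e j l = m j l + p * t j l := by exact_mod_cast h1
    rw [heq j l, ← hm j l] at h2
    have h3 : (p : ℚ) * (N * wt a (lam j l)) = p * t j l := by linarith
    exact (mul_left_cancel₀ hpQ.ne' h3).symm
  have hwt' : ∀ l, (t' l : ℚ) = N * wt a (phi l) := by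
    intro l
    have h1 : ((N : ℤ) * f l : ℤ) = m' l + p * t' l := ht' l
    have h2 : (N : ℚ) * f l = m' l + p * t' l := by exact_mod_cast h1
    rw [hfeq l, ← hm' l] at h2
    have h3 : (p : ℚ) * (N * wt a (phi l)) = p * t' l := by linarith
    exact (mul_left_cancel₀ hpQ.ne' h3).symm
  -- monotonicity
  have hmono : ∀ j l l', l ≤ l' → e j l ≤ e j l' := by
    intro j l l' hll
    have h1 := ht j l
    have h2 := ht j l'
    have h3 := (abs_le.mp (hM j l)).2
    have h4 := (abs_le.mp (hM j l')).1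
    rcases hsort j l l' hll with h | ⟨h, h'⟩
    · have h5 : t j l < t j l' := by
        have : (t j l : ℚ) < t j l' := by
          rw [hwt, hwt]; exact mul_lt_mul_of_pos_left h hNQ
        exact_mod_cast this
      have h6 : (N : ℤ) * e j l ≤ N * e j l' := by
        have h7 : (p : ℤ) * t j l + p ≤ p * t j l' := by nlinarith
        linarith
      exact_mod_cast le_of_mul_le_mul_left h6 hNpos
    · have h5 : (e j l : ℚ) ≤ e j l' := by rw [heq, heq, h]; linarith
      exact_mod_cast h5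
  have hmono' : ∀ l l', l ≤ l' → f l ≤ f l' := by
    intro l l' hll
    have h1 := ht' l
    have h2 := ht' l'
    have h3 := (abs_le.mp (hM' l)).2
    have h4 := (abs_le.mp (hM' l')).1
    rcases hsort' l l' hll with h | ⟨h, h'⟩
    · have h5 : t' l < t' l' := by
        have : (t' l : ℚ) < t' l' := by
          rw [hwt', hwt']; exact mul_lt_mul_of_pos_left h hNQ
        exact_mod_cast this
      have h6 : (N : ℤ) * f l ≤ N * f l' := by
        have h7 : (p : ℤ) * t' l + p ≤ p * t' l' := by nlinarith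
        linarith
      exact_mod_cast le_of_mul_le_mul_left h6 hNpos
    · have h5 : (f l : ℚ) ≤ f l' := by rw [hfeq, hfeq, h]; linarith
      exact_mod_cast h5
  -- the integer c
  let c : ℤ := q * r + (s : ℕ) - ∑ j, ((κ j : ℕ) : ℤ)
  have hc : (p : ℤ) * c = ∑ j, ∑ l, (e j l : ℤ) + ∑ i, (u i : ℤ) - ∑ l, (f l : ℤ) := by
    have h1 : ((p : ℤ) * c : ℚ) =
        ∑ j, ∑ l, (e j l : ℚ) + ∑ i, (u i : ℚ) - ∑ l, (f l : ℚ) := by
      simp only [heq, hfeq, Finset.sum_add_distrib, ← Finset.mul_sum, c]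
      push_cast
      linear_combination (-(p : ℚ)) * hq - htr
    exact_mod_cast h1
  have hcount : ∑ j, ((Finset.univ.filter fun i => e j i < e j (κ j)).card : ℤ) + c <
      ∑ i, (((p : ℤ) * q + f s - f i) / p + 1) := by
    have h1 : ∀ j, ((Finset.univ.filter fun i => e j i < e j (κ j)).card : ℤ) ≤ ((κ j : ℕ) : ℤ) := by
      intro j
      have h2 : (Finset.univ.filter fun i => e j i < e j (κ j)) ⊆ Finset.Iio (κ j) := by
        intro i hi
        rw [Finset.mem_filter] at hi
        rw [Finset.mem_Iio]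
        by_contra hcon
        exact absurd (hmono j _ _ (not_lt.mp hcon)) (not_le.mpr hi.2)
      have h3 := Finset.card_le_card h2
      rw [Fin.card_Iio] at h3
      exact_mod_cast h3
    have h2 : ∀ i, q + (if f i ≤ f s then 1 else 0) ≤ ((p : ℤ) * q + f s - f i) / p + 1 := by
      intro i
      have h3 : (p : ℤ) * q + f s - f i = (f s - f i) + p * q := by ring
      rw [h3, Int.add_mul_ediv_left _ _ hp0.ne']
      have h4 := hflt i
      have h5 := hflt s
      split_ifs with h6
      · have h7 : (0 : ℤ) ≤ ((f s : ℤ) - f i) / p := Int.ediv_nonneg (by omega) hp0.le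
        linarith
      · have h7 : (-1 : ℤ) ≤ ((f s : ℤ) - f i) / p := by
          rw [Int.le_ediv_iff_mul_le hp0]; omega
        linarith
    have h3 : (s : ℕ) + 1 ≤ (Finset.univ.filter fun i => f i ≤ f s).card := by
      have h4 : Finset.Iic s ⊆ (Finset.univ.filter fun i => f i ≤ f s) := by
        intro i hi
        rw [Finset.mem_Iic] at hi
        exact Finset.mem_filter.mpr ⟨Finset.mem_univ _, hmono' _ _ hi⟩
      have h5 := Finset.card_le_card h4
      rwa [Fin.card_Iic] at h5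
    calc ∑ j, ((Finset.univ.filter fun i => e j i < e j (κ j)).card : ℤ) + c
        ≤ ∑ j, ((κ j : ℕ) : ℤ) + c := by
          have := Finset.sum_le_sum fun j (_ : j ∈ Finset.univ) => h1 j
          linarith
      _ = q * r + (s : ℕ) := by simp only [c]; ring
      _ < q * r + ((Finset.univ.filter fun i => f i ≤ f s).card : ℤ) := by
          have : ((s : ℕ) : ℤ) + 1 ≤ ((Finset.univ.filter fun i => f i ≤ f s).card : ℤ) := by
            exact_mod_cast h3
          linarith
      _ = ∑ i, (q + (if f i ≤ f s then 1 else 0)) := by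
          rw [Finset.sum_add_distrib, Finset.sum_const, Finset.card_univ, Fintype.card_fin,
            nsmul_eq_mul, Finset.sum_boole]
          ring
      _ ≤ ∑ i, (((p : ℤ) * q + f s - f i) / p + 1) := Finset.sum_le_sum fun i _ => h2 i
  obtain ⟨W, h1, h2, h3, h4⟩ := core hα hfull e helt hAc hB f hflt hAsc c hc
    (fun j => e j (κ j)) (fun j => (helt j _).le) ((p : ℤ) * q + f s) hcount
  refine ⟨fun j => e j (κ j), (p : ℤ) * q + f s, W, fun j => heq j _, ?_, h1, h2, h3, h4⟩
  push_cast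
  rw [hfeq s]

/-- Dividing a solution by its forced zeros gives a solution of the twisted equation. -/
lemma twisted_of_sol {K : Type*} [Field K] {α : Fin n → K} {B : Matrix (Fin r) (Fin r) K[X]}
    {W Z : Fin r → K[X]} (hW : Sol α B W) {hh : Fin n → ℕ}
    (hZ : ∀ i, W i = (∏ j, (X - C (α j)) ^ hh j) * Z i) {N : ℕ} {μ : Fin n → ℤ}
    (hμ : ∀ j, (N : K) * (hh j : K) = (μ j : K)) : twOp N α B μ Z = 0 := by
  classical
  set P : K[X] := ∏ j, (X - C (α j)) ^ hh j with hP
  have hP0 : P ≠ 0 := Finset.prod_ne_zero_iff.mpr fun j _ => pow_ne_zero _ (X_sub_C_ne_zero _)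
  have hWZ : W = P • Z := by ext1 i; rw [hZ i]; rfl
  ext1 i
  apply mul_left_cancel₀ hP0
  rw [Pi.zero_apply, mul_zero]
  have h1 := hW i
  rw [hWZ, Matrix.mulVec_smul, Pi.smul_apply, Pi.smul_apply, smul_eq_mul, smul_eq_mul,
    derivative_mul] at h1
  have h2 := T_mul_derivative_prod α hh
  rw [← hP] at h2
  have h3 : (N : K[X]) * ∑ j, (hh j : K[X]) * Tc α j = ∑ j, (μ j : K[X]) * Tc α j := by
    rw [Finset.mul_sum]
    refine Finset.sum_congr rfl fun j _ => ?_
    rw [← mul_assoc]
    congr 1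
    have := congrArg (C : K → K[X]) (hμ j)
    simpa using this
  unfold twOp
  rw [← h3]
  calc P * ((N : K[X]) * (T α * derivative (Z i)) - (N : K[X]) * B.mulVec Z i +
        (N : K[X]) * (∑ j, (hh j : K[X]) * Tc α j) * Z i)
      = (N : K[X]) * (((∑ j, (hh j : K[X]) * Tc α j) * P) * Z i + P * (T α * derivative (Z i)) -
          P * B.mulVec Z i) := by ring
    _ = (N : K[X]) * (T α * (derivative P * Z i + P * derivative (Z i)) -
          P * B.mulVec Z i) := by rw [← h2]; ring
    _ = 0 := by rw [h1]; ring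

end

end Pool.Agent.W432.WB
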