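import Pool.Agent.W432.WB.Descent

set_option autoImplicit false

namespace Pool.Agent.W432.WB

lemma exists_prime_class {N : ℕ} (hN : 0 < N) {a : ℤ} (ha : IsCoprime a (N : ℤ)) (P : ℕ) :
    ∃ p : ℕ, P < p ∧ p.Prime ∧ (N : ℤ) ∣ a * p + 1 := by
  have : NeZero N := ⟨hN.ne'⟩
  obtain ⟨u, v, huv⟩ := ha
  have hunit : IsUnit (((-u : ℤ)) : ZMod N) := by
    refine IsUnit.of_mul_eq_one ((-a : ℤ) : ZMod N) ?_
    have h1 : (((u * a + v * N : ℤ)) : ZMod N) = 1 := by rw [huv]; simp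
    push_cast at h1 ⊢
    rw [ZMod.natCast_self, mul_zero, add_zero] at h1
    rw [neg_mul_neg]; exact h1
  obtain ⟨p, hpgt, hpp, hpeq⟩ := Nat.forall_exists_prime_gt_and_eq_mod hunit P
  refine ⟨p, hpgt, hpp, ?_⟩
  rw [← ZMod.intCast_zmod_eq_zero_iff_dvd]
  push_cast
  rw [hpeq]
  have h1 : (((u * a + v * N : ℤ)) : ZMod N) = 1 := by rw [huv]; simp
  push_cast at h1 ⊢
  rw [ZMod.natCast_self, mul_zero, add_zero] at h1
  linear_combination -h1

end Pool.Agent.W432.WB
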